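import Pool.Agent.Helper70_SZD.Sets

/-!
# The cube, natural numbers and finite sets in a model of ZF
-/

namespace Pool.Agent.SZD

universe u v w

variable {M : Type u} {E : M → M → Prop}

theorem DefP.sub {Γ : Type v} {c : Γ → ℕ → M} {α : Type w} {d : α → ℕ → M} {P : α → Prop}
    (h : DefP E d P) (t : Γ → α) (ht : ∀ n, Atom c (fun g => d (t g) n)) :
    DefP E c (fun g => P (t g)) := by
  obtain ⟨φ, s, hs⟩ := h
  choose s' hs' using ht
  refine ⟨φ, fun n => match s n with
    | .inl i => s' i
    | .inr a => .inr a, fun g => ?_⟩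
  refine (hs (t g)).trans ?_
  have : (fun n => ev (s n) (d (t g))) = fun n => ev (match s n with
    | .inl i => s' i
    | .inr a => .inr a) (c g) := by
    funext n
    rcases s n with i | a
    · exact hs' i g
    · rfl
  rw [this]

/-! ### Points of the cube -/

variable (E) in
/-- The points `x` and `y` agree on the set `S ⊆ J`. -/
def Agree (J o S x y : M) : Prop :=
  ∀ j, E j J → E j S → (PairIn E j o x ↔ PairIn E j o y)

theorem d_agree (J o : M) : D3 E (Agree E J o) := by
  unfold Agree
  apply D3.mk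
  (repeat (first | assumption | apply d_isOne.app | apply d_isZero.app | apply d_pairIn.app | apply d_isPair.app | exact Atom.var 0 fun _ => rfl | exact Atom.var 1 fun _ => rfl | exact Atom.var 2 fun _ => rfl | exact Atom.var 3 fun _ => rfl | exact Atom.var 4 fun _ => rfl | exact Atom.var 5 fun _ => rfl | exact Atom.var 6 fun _ => rfl | exact Atom.var 7 fun _ => rfl | exact Atom.var 8 fun _ => rfl | exact Atom.var 9 fun _ => rfl | exact Atom.const _ | apply Atom.defT | apply DefT.eq | apply DefT.mem | apply DefP.exEl | apply DefP.allEl | apply DefP.exM | apply DefP.allM | apply DefP.not | apply DefP.imp | apply DefP.iff | apply DefP.or | apply DefP.and))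

theorem Agree.refl {J o S x : M} : Agree E J o S x x := fun _ _ _ => Iff.rfl

theorem Agree.symm {J o S x y : M} (h : Agree E J o S x y) : Agree E J o S y x :=
  fun j hj hS => (h j hj hS).symm

theorem Agree.trans {J o S x y z : M} (h : Agree E J o S x y) (h' : Agree E J o S y z) :
    Agree E J o S x z := fun j hj hS => (h j hj hS).trans (h' j hj hS)

theorem Agree.mono {J o S S' x y : M} (h : Agree E J o S x y) (hS : ∀ j, E j S' → E j S) :
    Agree E J o S' x y := fun j hj hS' => h j hj (hS j hS')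

variable (hE : IsZF E) {J X o : M} (ho : IsOne E o) (hX : IsCube E X J)

include hE hX

theorem cube_val {x : M} (hx : E x X) {j : M} (hj : E j J) :
    ∃ i, PairIn E j i x ∧ (IsZero E i ∨ IsOne E i) ∧ ∀ i', PairIn E j i' x → i' = i := by
  obtain ⟨t, ht, h1, h2⟩ := (hX x).1 hx
  obtain ⟨i, hi, hu⟩ := h2 j hj
  refine ⟨i, hi, ?_, hu⟩
  obtain ⟨p, hp, hpx⟩ := hi
  obtain ⟨j', i', -, hi', hp'⟩ := h1 p hpx
  obtain ⟨-, rfl⟩ := isPair_inj_left hE hp hp'
  exact (ht i).1 hi'

include ho

theorem cube_one_or_zero {x : M} (hx : E x X) {j : M} (hj : E j J) {z : M} (hz : IsZero E z) :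
    PairIn E j z x ↔ ¬ PairIn E j o x := by
  obtain ⟨i, hi, hi', hu⟩ := cube_val hE hX hx hj
  constructor
  · intro h h'
    exact hE.zero_ne_one hz ho ((hu z h).trans (hu o h').symm)
  · intro h
    rcases hi' with hi' | hi'
    · rwa [hE.zero_unique hz hi']
    · exact absurd (by rwa [hE.one_unique ho hi']) h

theorem cube_sub {x y : M} (hx : E x X) (hy : E y X) (h : ∀ j, E j J →
    (PairIn E j o x ↔ PairIn E j o y)) {p : M} (hp : E p x) : E p y := by
  obtain ⟨t, ht, h1, -⟩ := (hX x).1 hx
  obtain ⟨j, i, hj, hi, hpji⟩ := h1 p hp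
  have hin : PairIn E j i x := ⟨p, hpji, hp⟩
  have hin' : PairIn E j i y := by
    rcases (ht i).1 hi with hi | hi
    · rw [cube_one_or_zero hE ho hX hx hj hi] at hin
      rw [cube_one_or_zero hE ho hX hy hj hi, ← h j hj]
      exact hin
    · rw [hE.one_unique hi ho] at hin ⊢
      exact (h j hj).1 hin
  obtain ⟨q, hq, hqy⟩ := hin'
  rwa [hE.pair_unique hpji hq]

theorem cube_ext {x y : M} (hx : E x X) (hy : E y X) (h : ∀ j, E j J →
    (PairIn E j o x ↔ PairIn E j o y)) : x = y :=
  hE.extensionality _ _ fun _ => ⟨cube_sub hE ho hX hx hy h,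
    cube_sub hE ho hX hy hx fun j hj => (h j hj).symm⟩

/-- Every definable predicate on `J` is a point of the cube. -/
theorem cube_compr (P : El E J → Prop) (hP : DefP E (fun (x : El E J) (_ : ℕ) => x.1) P) :
    ∃ x : El E X, ∀ j : El E J, PairIn E j.1 o x.1 ↔ P j := by
  obtain ⟨t, ht⟩ := hE.exists_two
  obtain ⟨z, hz⟩ := hE.exists_zero
  obtain ⟨x, hx1, hx2⟩ := hE.exists_rel J t
    (fun j i => ∃ j' : El E J, j'.1 = j ∧ ((P j' ∧ IsOne E i) ∨ (¬ P j' ∧ IsZero E i))) (by
      apply D2.mk
      have hP' : DefP E (extEl E (fun (p : M × M) => scons p.1 (fun _ => p.2)) J)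
        (fun p : (M × M) × El E J => P p.2) := hP.sub (fun p : (M × M) × El E J => p.2)
          (fun n => Atom.var 0 fun _ => rfl)
      (repeat (first | assumption | apply (d_agree _ _).app | apply d_isOne.app | apply d_isZero.app | apply d_pairIn.app | apply d_isPair.app | exact Atom.var 0 fun _ => rfl | exact Atom.var 1 fun _ => rfl | exact Atom.var 2 fun _ => rfl | exact Atom.var 3 fun _ => rfl | exact Atom.var 4 fun _ => rfl | exact Atom.var 5 fun _ => rfl | exact Atom.var 6 fun _ => rfl | exact Atom.var 7 fun _ => rfl | exact Atom.var 8 fun _ => rfl | exact Atom.var 9 fun _ => rfl | exact Atom.const _ | apply Atom.defT | apply DefT.eq | apply DefT.mem | apply DefP.exEl | apply DefP.allEl | apply DefP.exM | apply DefP.allM | apply DefP.not | apply DefP.imp | apply DefP.iff | apply DefP.or | apply DefP.and)))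
  have hmem : E x X := by
    refine (hX x).2 ⟨t, ht, fun p hp => ?_, fun j hj => ?_⟩
    · obtain ⟨j, i, hj, hi, -, hp⟩ := (hx1 p).1 hp
      exact ⟨j, i, hj, hi, hp⟩
    · by_cases h : P ⟨j, hj⟩
      · refine ⟨o, (hx2 j o).2 ⟨hj, (ht o).2 (Or.inr ho), ⟨j, hj⟩, rfl, Or.inl ⟨h, ho⟩⟩, ?_⟩
        intro i hi
        obtain ⟨-, -, j', hj', h'⟩ := (hx2 j i).1 hi
        obtain rfl : j' = ⟨j, hj⟩ := Subtype.ext hj'
        rcases h' with h' | h'
        · exact hE.one_unique h'.2 ho
        · exact absurd h h'.1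
      · refine ⟨z, (hx2 j z).2 ⟨hj, (ht z).2 (Or.inl hz), ⟨j, hj⟩, rfl, Or.inr ⟨h, hz⟩⟩, ?_⟩
        intro i hi
        obtain ⟨-, -, j', hj', h'⟩ := (hx2 j i).1 hi
        obtain rfl : j' = ⟨j, hj⟩ := Subtype.ext hj'
        rcases h' with h' | h'
        · exact absurd h'.1 h
        · exact hE.zero_unique h'.2 hz
  refine ⟨⟨x, hmem⟩, fun j => ?_⟩
  show PairIn E j.1 o x ↔ _
  rw [hx2]
  constructor
  · rintro ⟨-, -, j', hj', h'⟩
    obtain rfl : j' = j := Subtype.ext hj'
    rcases h' with h' | h'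
    · exact h'.1
    · exact absurd ho (fun h => hE.zero_ne_one h'.2 h rfl)
  · intro h
    exact ⟨j.2, (ht o).2 (Or.inr ho), j, rfl, Or.inl ⟨h, ho⟩⟩

/-- The point that agrees with `x` on `S` and with `y` off `S`. -/
theorem exists_mix (S : M) (x y : El E X) : ∃ z : El E X, ∀ j : El E J,
    PairIn E j.1 o z.1 ↔ (E j.1 S ∧ PairIn E j.1 o x.1) ∨ (¬ E j.1 S ∧ PairIn E j.1 o y.1) :=
  cube_compr hE ho hX _ (by (repeat (first | assumption | apply (d_agree _ _).app | apply d_isOne.app | apply d_isZero.app | apply d_pairIn.app | apply d_isPair.app | exact Atom.var 0 fun _ => rfl | exact Atom.var 1 fun _ => rfl | exact Atom.var 2 fun _ => rfl | exact Atom.var 3 fun _ => rfl | exact Atom.var 4 fun _ => rfl | exact Atom.var 5 fun _ => rfl | exact Atom.var 6 fun _ => rfl | exact Atom.var 7 fun _ => rfl | exact Atom.var 8 fun _ => rfl | exact Atom.var 9 fun _ => rfl | exact Atom.const _ | apply Atom.defT | apply DefT.eq | apply DefT.mem | apply DefP.exEl | apply DefP.allEl | apply DefP.exM | apply DefP.allM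 | apply DefP.not | apply DefP.imp | apply DefP.iff | apply DefP.or | apply DefP.and)))

/-- The complement of a point. -/
theorem exists_compl (x : El E X) : ∃ z : El E X, ∀ j : El E J,
    PairIn E j.1 o z.1 ↔ ¬ PairIn E j.1 o x.1 :=
  cube_compr hE ho hX _ (by (repeat (first | assumption | apply (d_agree _ _).app | apply d_isOne.app | apply d_isZero.app | apply d_pairIn.app | apply d_isPair.app | exact Atom.var 0 fun _ => rfl | exact Atom.var 1 fun _ => rfl | exact Atom.var 2 fun _ => rfl | exact Atom.var 3 fun _ => rfl | exact Atom.var 4 fun _ => rfl | exact Atom.var 5 fun _ => rfl | exact Atom.var 6 fun _ => rfl | exact Atom.var 7 fun _ => rfl | exact Atom.var 8 fun _ => rfl | exact Atom.var 9 fun _ => rfl | exact Atom.const _ | apply Atom.defT | apply DefT.eq | apply DefT.mem | apply DefP.exEl | apply DefP.allEl | apply DefP.exM | apply DefP.allM | apply DefP.not | apply DefP.imp | apply DefP.iff | apply DefP.or | apply DefP.and)))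

end Pool.Agent.SZD
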