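import Pool.Agent.Helper70_SZD.Cube

/-!
# Natural numbers and finite sets in a model of ZF
-/

namespace Pool.Agent.SZD

universe u v w

variable {M : Type u} {E : M → M → Prop}

section Terms

variable (R : Reals E)

/-- The addition of the reals of the model as a ternary relation. -/
def AddRel (x y z : M) : Prop :=
  ∃ x' y' z' : El E R.carrier, x'.1 = x ∧ y'.1 = y ∧ z'.1 = z ∧ x' + y' = z'

theorem d_addRel : D3 E (AddRel R) := by
  apply D3.mk
  refine DefP.congr (P := fun p : M × M × M => ∃ x' y' z' : El E R.carrier, x'.1 = p.1 ∧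
    y'.1 = p.2.1 ∧ z'.1 = p.2.2 ∧
      ∃ q, IsPair E q x'.1 y'.1 ∧ PairIn E q z'.1 R.addGraph) ?_ fun g => ?_
  · (repeat (first | assumption | apply (d_agree _ _).app | apply d_isOne.app | apply d_isZero.app | apply d_pairIn.app | apply d_isPair.app | exact Atom.var 0 fun _ => rfl | exact Atom.var 1 fun _ => rfl | exact Atom.var 2 fun _ => rfl | exact Atom.var 3 fun _ => rfl | exact Atom.var 4 fun _ => rfl | exact Atom.var 5 fun _ => rfl | exact Atom.var 6 fun _ => rfl | exact Atom.var 7 fun _ => rfl | exact Atom.var 8 fun _ => rfl | exact Atom.var 9 fun _ => rfl | exact Atom.const _ | apply Atom.defT | apply DefT.eq | apply DefT.mem | apply DefP.exEl | apply DefP.allEl | apply DefP.exM | apply DefP.allM | apply DefP.not | apply DefP.imp | apply DefP.iff | apply DefP.or | apply DefP.and))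
  · unfold AddRel
    simp only [R.add_iff]

/-- The multiplication of the reals of the model as a ternary relation. -/
def MulRel (x y z : M) : Prop :=
  ∃ x' y' z' : El E R.carrier, x'.1 = x ∧ y'.1 = y ∧ z'.1 = z ∧ x' * y' = z'

theorem d_mulRel : D3 E (MulRel R) := by
  apply D3.mk
  refine DefP.congr (P := fun p : M × M × M => ∃ x' y' z' : El E R.carrier, x'.1 = p.1 ∧
    y'.1 = p.2.1 ∧ z'.1 = p.2.2 ∧
      ∃ q, IsPair E q x'.1 y'.1 ∧ PairIn E q z'.1 R.mulGraph) ?_ fun g => ?_
  · (repeat (first | assumption | apply (d_agree _ _).app | apply d_isOne.app | apply d_isZero.app | apply d_pairIn.app | apply d_isPair.app | exact Atom.var 0 fun _ => rfl | exact Atom.var 1 fun _ => rfl | exact Atom.var 2 fun _ => rfl | exact Atom.var 3 fun _ => rfl | exact Atom.var 4 fun _ => rfl | exact Atom.var 5 fun _ => rfl | exact Atom.var 6 fun _ => rfl | exact Atom.var 7 fun _ => rfl | exact Atom.var 8 fun _ => rfl | exact Atom.var 9 fun _ => rfl | exact Atom.const _ | apply Atom.defT | apply DefT.eq | apply DefT.mem | apply DefP.exEl | apply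 DefP.allEl | apply DefP.exM | apply DefP.allM | apply DefP.not | apply DefP.imp | apply DefP.iff | apply DefP.or | apply DefP.and))
  · unfold MulRel
    simp only [R.mul_iff]

variable {Γ : Type v} {c : Γ → ℕ → M}

theorem defT_add {t s : Γ → El E R.carrier} (ht : DefT E c (fun g => (t g).1))
    (hs : DefT E c (fun g => (s g).1)) : DefT E c (fun g => (t g + s g).1) := by
  refine ((d_addRel R).app ht.weaken hs.weaken
    (Atom.defT (Atom.var 0 fun _ => rfl : Atom (ext c) (fun p => p.2)))).congr fun p => ?_
  constructor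
  · intro h
    exact ⟨t p.1, s p.1, _, rfl, rfl, h.symm, rfl⟩
  · rintro ⟨x, y, z, hx, hy, hz, h⟩
    obtain rfl := Subtype.ext hx
    obtain rfl := Subtype.ext hy
    exact hz.symm.trans (congrArg Subtype.val h.symm)

theorem defT_mul {t s : Γ → El E R.carrier} (ht : DefT E c (fun g => (t g).1))
    (hs : DefT E c (fun g => (s g).1)) : DefT E c (fun g => (t g * s g).1) := by
  refine ((d_mulRel R).app ht.weaken hs.weaken
    (Atom.defT (Atom.var 0 fun _ => rfl : Atom (ext c) (fun p => p.2)))).congr fun p => ?_
  constructor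
  · intro h
    exact ⟨t p.1, s p.1, _, rfl, rfl, h.symm, rfl⟩
  · rintro ⟨x, y, z, hx, hy, hz, h⟩
    obtain rfl := Subtype.ext hx
    obtain rfl := Subtype.ext hy
    exact hz.symm.trans (congrArg Subtype.val h.symm)

theorem defP_le {t s : Γ → El E R.carrier} (ht : DefT E c (fun g => (t g).1))
    (hs : DefT E c (fun g => (s g).1)) : DefP E c (fun g => t g ≤ s g) :=
  (d_pairIn.app ht hs (Atom.const R.leGraph).defT).congr fun _ => R.le_iff _ _

theorem defP_lt {t s : Γ → El E R.carrier} (ht : DefT E c (fun g => (t g).1))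
    (hs : DefT E c (fun g => (s g).1)) : DefP E c (fun g => t g < s g) :=
  (defP_le R hs ht).not.congr fun _ => not_le.symm

end Terms

section Nat

variable (R : Reals E)

/-- `n` is a natural number of the model. -/
def IsNat (n : El E R.carrier) : Prop :=
  ∀ S, E (0 : El E R.carrier).1 S → (∀ m : El E R.carrier, E m.1 S → E (m + 1).1 S) → E n.1 S

theorem d_isNat {Γ : Type v} {c : Γ → ℕ → M} {t : Γ → El E R.carrier}
    (ht : Atom c (fun g => (t g).1)) : DefP E c (fun g => IsNat R (t g)) := by
  have h : DefP E (fun (x : El E R.carrier) (_ : ℕ) => x.1) (fun x => IsNat R x) := by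
    unfold IsNat
    (repeat (first | assumption | apply defP_lt | apply defP_le | apply defT_mul | apply defT_add | apply (d_agree _ _).app | apply d_isOne.app | apply d_isZero.app | apply d_pairIn.app | apply d_isPair.app | exact Atom.var 0 fun _ => rfl | exact Atom.var 1 fun _ => rfl | exact Atom.var 2 fun _ => rfl | exact Atom.var 3 fun _ => rfl | exact Atom.var 4 fun _ => rfl | exact Atom.var 5 fun _ => rfl | exact Atom.var 6 fun _ => rfl | exact Atom.var 7 fun _ => rfl | exact Atom.var 8 fun _ => rfl | exact Atom.var 9 fun _ => rfl | exact Atom.const _ | apply Atom.defT | apply DefT.eq | apply DefT.mem | apply DefP.exEl | apply DefP.allEl | apply DefP.exM | apply DefP.allM | apply DefP.not | apply DefP.imp | apply DefP.iff | apply DefP.or | apply DefP.and))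
  exact h.sub t fun _ => ht

theorem isNat_zero : IsNat R 0 := fun _ h _ => h

theorem isNat_succ {n : El E R.carrier} (h : IsNat R n) : IsNat R (n + 1) :=
  fun S h0 hs => hs n (h S h0 hs)

theorem nat_ind (hE : IsZF E) {P : El E R.carrier → Prop}
    (hP : DefP E (fun (x : El E R.carrier) (_ : ℕ) => x.1) P) (h0 : P 0)
    (hs : ∀ n, IsNat R n → P n → P (n + 1)) : ∀ n, IsNat R n → P n := by
  obtain ⟨S, hS⟩ := hE.sepEl R.carrier (fun n => IsNat R n ∧ P n)
    ((d_isNat R (Atom.var 0 fun _ => rfl)).and hP)
  intro n hn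
  have hmem : ∀ m : El E R.carrier, E m.1 S ↔ IsNat R m ∧ P m := by
    intro m
    rw [hS]
    exact ⟨fun ⟨_, h⟩ => h, fun h => ⟨m.2, h⟩⟩
  refine ((hmem n).1 (hn S ?_ ?_)).2
  · exact (hmem 0).2 ⟨isNat_zero R, h0⟩
  · intro m hm
    obtain ⟨h1, h2⟩ := (hmem m).1 hm
    exact (hmem _).2 ⟨isNat_succ R h1, hs m h1 h2⟩

theorem nat_nonneg (hE : IsZF E) : ∀ n, IsNat R n → 0 ≤ n := by
  refine nat_ind R hE ?_ le_rfl fun n _ h => by linarith
  (repeat (first | assumption | apply d_isNat | apply defP_lt | apply defP_le | apply defT_mul | apply defT_add | apply (d_agree _ _).app | apply d_isOne.app | apply d_isZero.app | apply d_pairIn.app | apply d_isPair.app | exact Atom.var 0 fun _ => rfl | exact Atom.var 1 fun _ => rfl | exact Atom.var 2 fun _ => rfl | exact Atom.var 3 fun _ => rfl | exact Atom.var 4 fun _ => rfl | exact Atom.var 5 fun _ => rfl | exact Atom.var 6 fun _ => rfl | exact Atom.var 7 fun _ => rfl | exact Atom.var 8 fun _ => rfl | exact Atom.var 9 fun _ => rfl | exact Atom.const _ | apply Atom.defT | apply DefT.eq | apply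 DefT.mem | apply DefP.exEl | apply DefP.allEl | apply DefP.exM | apply DefP.allM | apply DefP.not | apply DefP.imp | apply DefP.iff | apply DefP.or | apply DefP.and))

theorem nat_pred (hE : IsZF E) : ∀ n, IsNat R n → n = 0 ∨ ∃ m, IsNat R m ∧ n = m + 1 := by
  refine nat_ind R hE ?_ (Or.inl rfl) fun n hn _ => Or.inr ⟨n, hn, rfl⟩
  refine DefP.congr (P := fun n : El E R.carrier => n.1 = (0 : El E R.carrier).1 ∨
    ∃ m : El E R.carrier, IsNat R m ∧ n.1 = (m + 1).1) ?_ fun n => ?_
  · (repeat (first | assumption | apply d_isNat | apply defP_lt | apply defP_le | apply defT_mul | apply defT_add | apply (d_agree _ _).app | apply d_isOne.app | apply d_isZero.app | apply d_pairIn.app | apply d_isPair.app | exact Atom.var 0 fun _ => rfl | exact Atom.var 1 fun _ => rfl | exact Atom.var 2 fun _ => rfl | exact Atom.var 3 fun _ => rfl | exact Atom.var 4 fun _ => rfl | exact Atom.var 5 fun _ => rfl | exact Atom.var 6 fun _ => rfl | exact Atom.var 7 fun _ => rfl | exact Atom.var 8 fun _ => rfl | exact Atom.var 9 fun _ => rfl | exact Atom.const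 _ | apply Atom.defT | apply DefT.eq | apply DefT.mem | apply DefP.exEl | apply DefP.allEl | apply DefP.exM | apply DefP.allM | apply DefP.not | apply DefP.imp | apply DefP.iff | apply DefP.or | apply DefP.and))
  · simp only [Subtype.ext_iff]

theorem nat_add (hE : IsZF E) {m : El E R.carrier} (hm : IsNat R m) :
    ∀ n, IsNat R n → IsNat R (m + n) := by
  refine nat_ind R hE ?_ (by simpa using hm) fun n _ h => by
    rw [← add_assoc]
    exact isNat_succ R h
  refine DefP.congr (P := fun n : El E R.carrier => ∃ k : El E R.carrier, IsNat R k ∧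
    k.1 = (m + n).1) ?_ fun n => ?_
  · (repeat (first | assumption | apply d_isNat | apply defP_lt | apply defP_le | apply defT_mul | apply defT_add | apply (d_agree _ _).app | apply d_isOne.app | apply d_isZero.app | apply d_pairIn.app | apply d_isPair.app | exact Atom.var 0 fun _ => rfl | exact Atom.var 1 fun _ => rfl | exact Atom.var 2 fun _ => rfl | exact Atom.var 3 fun _ => rfl | exact Atom.var 4 fun _ => rfl | exact Atom.var 5 fun _ => rfl | exact Atom.var 6 fun _ => rfl | exact Atom.var 7 fun _ => rfl | exact Atom.var 8 fun _ => rfl | exact Atom.var 9 fun _ => rfl | exact Atom.const _ | apply Atom.defT | apply DefT.eq | apply DefT.mem | apply DefP.exEl | apply DefP.allEl | apply DefP.exM | apply DefP.allM | apply DefP.not | apply DefP.imp | apply DefP.iff | apply DefP.or | apply DefP.and))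
  · constructor
    · intro h
      exact ⟨_, h, rfl⟩
    · rintro ⟨k, hk, h⟩
      rwa [← Subtype.ext h]

/-- The reals of the model are Archimedean in the sense of the model. -/
theorem exists_nat_gt (hE : IsZF E) (r : El E R.carrier) : ∃ n, IsNat R n ∧ r < n := by
  by_contra hcon
  push Not at hcon
  obtain ⟨S, hS⟩ := hE.sepEl R.carrier (fun n => IsNat R n) (d_isNat R (Atom.var 0 fun _ => rfl))
  have hmem : ∀ m : El E R.carrier, E m.1 S ↔ IsNat R m := by
    intro m
    rw [hS]
    exact ⟨fun ⟨_, h⟩ => h, fun h => ⟨m.2, h⟩⟩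
  obtain ⟨b, hb1, hb2⟩ := R.complete S (fun x hx => ((hS x).1 hx).1)
    ⟨_, (hmem 0).2 (isNat_zero R)⟩ ⟨r, fun x hx => hcon x ((hmem x).1 hx)⟩
  have := hb2 (b - 1) fun x hx => by
    have := hb1 (x + 1) ((hmem _).2 (isNat_succ R ((hmem x).1 hx)))
    linarith
  linarith

end Nat

section Size

variable (R : Reals E) (J : M)

/-- The closure conditions for the relation saying that `G` has at most `n` elements. -/
def SzClosed (Z : M) : Prop :=
  (∀ e, IsZero E e → ∀ n : El E R.carrier, IsNat R n → PairIn E e n.1 Z) ∧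
    ∀ G G' : M, ∀ j : El E J, ∀ n : El E R.carrier, PairIn E G n.1 Z →
      (∀ x, E x G' ↔ E x G ∨ x = j.1) → PairIn E G' (n + 1).1 Z

/-- The set `G ⊆ J` has at most `n` elements, in the sense of the model. -/
def Sz (G : M) (n : El E R.carrier) : Prop := ∀ Z, SzClosed R J Z → PairIn E G n.1 Z

theorem d_sz {Γ : Type v} {c : Γ → ℕ → M} {G : Γ → M} {t : Γ → El E R.carrier}
    (hG : Atom c G) (ht : Atom c (fun g => (t g).1)) :
    DefP E c (fun g => Sz R J (G g) (t g)) := by
  have h : DefP E (fun (p : M × El E R.carrier) => scons p.1 (fun _ => p.2.1))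
      (fun p => Sz R J p.1 p.2) := by
    unfold Sz SzClosed
    (repeat (first | assumption | apply d_isNat | apply defP_lt | apply defP_le | apply defT_mul | apply defT_add | apply (d_agree _ _).app | apply d_isOne.app | apply d_isZero.app | apply d_pairIn.app | apply d_isPair.app | exact Atom.var 0 fun _ => rfl | exact Atom.var 1 fun _ => rfl | exact Atom.var 2 fun _ => rfl | exact Atom.var 3 fun _ => rfl | exact Atom.var 4 fun _ => rfl | exact Atom.var 5 fun _ => rfl | exact Atom.var 6 fun _ => rfl | exact Atom.var 7 fun _ => rfl | exact Atom.var 8 fun _ => rfl | exact Atom.var 9 fun _ => rfl | exact Atom.const _ | apply Atom.defT | apply DefT.eq | apply DefT.mem | apply DefP.exEl | apply DefP.allEl | apply DefP.exM | apply DefP.allM | apply DefP.not | apply DefP.imp | apply DefP.iff | apply DefP.or | apply DefP.and))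
  exact h.sub (fun g => (G g, t g)) fun n => by
    cases n with
    | zero => exact hG
    | succ n => exact ht

variable {R J}

theorem sz_empty {e : M} {n : El E R.carrier} (he : IsZero E e) (hn : IsNat R n) :
    Sz R J e n := fun _ hZ => hZ.1 e he n hn

theorem sz_insert {G G' : M} (j : El E J) {n : El E R.carrier} (h : Sz R J G n)
    (hG' : ∀ x, E x G' ↔ E x G ∨ x = j.1) : Sz R J G' (n + 1) :=
  fun Z hZ => hZ.2 G G' j n (h Z hZ) hG'

theorem sz_ind (hE : IsZF E) {Φ : M → El E R.carrier → Prop}
    (hΦ : DefP E (fun (p : M × El E R.carrier) => scons p.1 (fun _ => p.2.1))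
      (fun p => Φ p.1 p.2))
    (h0 : ∀ e n, IsZero E e → IsNat R n → Φ e n)
    (hs : ∀ G G' : M, ∀ j : El E J, ∀ n, Sz R J G n → Φ G n →
      (∀ x, E x G' ↔ E x G ∨ x = j.1) → Φ G' (n + 1)) :
    ∀ G n, Sz R J G n → Φ G n := by
  obtain ⟨P, hP⟩ := hE.power J
  obtain ⟨Z, -, hZ⟩ := hE.exists_rel P R.carrier
    (fun G m => ∃ n : El E R.carrier, n.1 = m ∧ Sz R J G n ∧ Φ G n) (by
      apply D2.mk
      have hΦ' : DefP E (extEl E (fun (p : M × M) => scons p.1 (fun _ => p.2)) R.carrier)
          (fun p : (M × M) × El E R.carrier => Φ p.1.1 p.2) :=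
        hΦ.sub (fun p : (M × M) × El E R.carrier => (p.1.1, p.2)) (fun n => by
          cases n with
          | zero => exact Atom.var 1 fun _ => rfl
          | succ n => exact Atom.var 0 fun _ => rfl)
      (repeat (first | assumption | apply d_sz | apply d_isNat | apply defP_lt | apply defP_le | apply defT_mul | apply defT_add | apply (d_agree _ _).app | apply d_isOne.app | apply d_isZero.app | apply d_pairIn.app | apply d_isPair.app | exact Atom.var 0 fun _ => rfl | exact Atom.var 1 fun _ => rfl | exact Atom.var 2 fun _ => rfl | exact Atom.var 3 fun _ => rfl | exact Atom.var 4 fun _ => rfl | exact Atom.var 5 fun _ => rfl | exact Atom.var 6 fun _ => rfl | exact Atom.var 7 fun _ => rfl | exact Atom.var 8 fun _ => rfl | exact Atom.var 9 fun _ => rfl | exact Atom.const _ | apply Atom.defT | apply DefT.eq | apply DefT.mem | apply DefP.exEl | apply DefP.allEl | apply DefP.exM | apply DefP.allM | apply DefP.not | apply DefP.imp | apply DefP.iff | apply DefP.or | apply DefP.and)))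
  have key : ∀ G, ∀ n : El E R.carrier, PairIn E G n.1 Z ↔
      (∀ x, E x G → E x J) ∧ Sz R J G n ∧ Φ G n := by
    intro G n
    rw [hZ, hP]
    constructor
    · rintro ⟨h1, -, m, hm, h2⟩
      obtain rfl := Subtype.ext hm
      exact ⟨h1, h2⟩
    · rintro ⟨h1, h2⟩
      exact ⟨h1, n.2, n, rfl, h2⟩
  intro G n hG
  refine ((key G n).1 (hG Z ⟨?_, ?_⟩)).2.2
  · intro e he n hn
    exact (key e n).2 ⟨fun x hx => absurd hx (he x), sz_empty he hn, h0 e n he hn⟩
  · intro G G' j n h hG'
    obtain ⟨h1, h2, h3⟩ := (key G n).1 h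
    refine (key G' (n + 1)).2 ⟨fun x hx => ?_, sz_insert j h2 hG', hs G G' j n h2 h3 hG'⟩
    rcases (hG' x).1 hx with h | rfl
    · exact h1 x h
    · exact j.2

theorem sz_sub (hE : IsZF E) {G : M} {n : El E R.carrier} (h : Sz R J G n) {x : M}
    (hx : E x G) : E x J := by
  refine sz_ind hE (Φ := fun G _ => ∀ x, E x G → E x J) (by (repeat (first | assumption | apply d_sz | apply d_isNat | apply defP_lt | apply defP_le | apply defT_mul | apply defT_add | apply (d_agree _ _).app | apply d_isOne.app | apply d_isZero.app | apply d_pairIn.app | apply d_isPair.app | exact Atom.var 0 fun _ => rfl | exact Atom.var 1 fun _ => rfl | exact Atom.var 2 fun _ => rfl | exact Atom.var 3 fun _ => rfl | exact Atom.var 4 fun _ => rfl | exact Atom.var 5 fun _ => rfl | exact Atom.var 6 fun _ => rfl | exact Atom.var 7 fun _ => rfl | exact Atom.var 8 fun _ => rfl | exact Atom.var 9 fun _ => rfl | exact Atom.const _ | apply Atom.defT | apply DefT.eq | apply DefT.mem | apply DefP.exEl | apply DefP.allEl | apply DefP.exM | apply DefP.allM | apply DefP.not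 | apply DefP.imp | apply DefP.iff | apply DefP.or | apply DefP.and))) ?_ ?_ G n h x hx
  · intro e _ he _ x hx
    exact absurd hx (he x)
  · intro G G' j n _ h hG' x hx
    rcases (hG' x).1 hx with h' | rfl
    · exact h x h'
    · exact j.2

theorem sz_nat (hE : IsZF E) {G : M} {n : El E R.carrier} (h : Sz R J G n) : IsNat R n := by
  refine sz_ind hE (Φ := fun _ n => IsNat R n) (by (repeat (first | assumption | apply d_sz | apply d_isNat | apply defP_lt | apply defP_le | apply defT_mul | apply defT_add | apply (d_agree _ _).app | apply d_isOne.app | apply d_isZero.app | apply d_pairIn.app | apply d_isPair.app | exact Atom.var 0 fun _ => rfl | exact Atom.var 1 fun _ => rfl | exact Atom.var 2 fun _ => rfl | exact Atom.var 3 fun _ => rfl | exact Atom.var 4 fun _ => rfl | exact Atom.var 5 fun _ => rfl | exact Atom.var 6 fun _ => rfl | exact Atom.var 7 fun _ => rfl | exact Atom.var 8 fun _ => rfl | exact Atom.var 9 fun _ => rfl | exact Atom.const _ | apply Atom.defT | apply DefT.eq | apply DefT.mem | apply DefP.exEl | apply DefP.allEl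 | apply DefP.exM | apply DefP.allM | apply DefP.not | apply DefP.imp | apply DefP.iff | apply DefP.or | apply DefP.and))) ?_ ?_ G n h
  · exact fun _ _ _ h => h
  · exact fun _ _ _ n _ h _ => isNat_succ R h

theorem sz_mono (hE : IsZF E) {G : M} {n m : El E R.carrier} (h : Sz R J G n)
    (hm : IsNat R m) (hnm : n ≤ m) : Sz R J G m := by
  refine sz_ind hE (Φ := fun G n => ∀ m : El E R.carrier, IsNat R m → n ≤ m → Sz R J G m)
    (by (repeat (first | assumption | apply d_sz | apply d_isNat | apply defP_lt | apply defP_le | apply defT_mul | apply defT_add | apply (d_agree _ _).app | apply d_isOne.app | apply d_isZero.app | apply d_pairIn.app | apply d_isPair.app | exact Atom.var 0 fun _ => rfl | exact Atom.var 1 fun _ => rfl | exact Atom.var 2 fun _ => rfl | exact Atom.var 3 fun _ => rfl | exact Atom.var 4 fun _ => rfl | exact Atom.var 5 fun _ => rfl | exact Atom.var 6 fun _ => rfl | exact Atom.var 7 fun _ => rfl | exact Atom.var 8 fun _ => rfl | exact Atom.var 9 fun _ => rfl | exact Atom.const _ | apply Atom.defT | apply DefT.eq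 | apply DefT.mem | apply DefP.exEl | apply DefP.allEl | apply DefP.exM | apply DefP.allM | apply DefP.not | apply DefP.imp | apply DefP.iff | apply DefP.or | apply DefP.and))) ?_ ?_ G n h m hm hnm
  · exact fun e n he _ m hm _ => sz_empty he hm
  · intro G G' j n hG ih hG' m hm hnm
    rcases nat_pred R hE m hm with rfl | ⟨k, hk, rfl⟩
    · have := nat_nonneg R hE n (sz_nat hE hG)
      linarith
    · exact sz_insert j (ih k hk (by linarith)) hG'

theorem sz_zero (hE : IsZF E) {G : M} (h : Sz R J G 0) : IsZero E G := by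
  have key : ∀ (G : M) (n : El E R.carrier), Sz R J G n →
      n.1 = (0 : El E R.carrier).1 → IsZero E G := by
    refine sz_ind hE (by (repeat (first | assumption | apply d_sz | apply d_isNat | apply defP_lt | apply defP_le | apply defT_mul | apply defT_add | apply (d_agree _ _).app | apply d_isOne.app | apply d_isZero.app | apply d_pairIn.app | apply d_isPair.app | exact Atom.var 0 fun _ => rfl | exact Atom.var 1 fun _ => rfl | exact Atom.var 2 fun _ => rfl | exact Atom.var 3 fun _ => rfl | exact Atom.var 4 fun _ => rfl | exact Atom.var 5 fun _ => rfl | exact Atom.var 6 fun _ => rfl | exact Atom.var 7 fun _ => rfl | exact Atom.var 8 fun _ => rfl | exact Atom.var 9 fun _ => rfl | exact Atom.const _ | apply Atom.defT | apply DefT.eq | apply DefT.mem | apply DefP.exEl | apply DefP.allEl | apply DefP.exM | apply DefP.allM | apply DefP.not | apply DefP.imp | apply DefP.iff | apply DefP.or | apply DefP.and))) ?_ ?_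
    · exact fun e n he _ _ => he
    · intro G G' j n hG _ _ h
      have h1 := nat_nonneg R hE n (sz_nat hE hG)
      have h2 : n + 1 = 0 := Subtype.ext h
      linarith
  exact key G 0 h rfl

theorem sz_erase (hE : IsZF E) {G : M} {n : El E R.carrier} (h : Sz R J G n) {j G' : M}
    (hj : E j G) (hG' : ∀ x, E x G' ↔ E x G ∧ x ≠ j) :
    ∃ m, n = m + 1 ∧ Sz R J G' m := by
  have key : ∀ (G : M) (n : El E R.carrier), Sz R J G n → ∀ j G', E j G →
      (∀ x, E x G' ↔ E x G ∧ ¬ x = j) → ∃ m : El E R.carrier, n.1 = (m + 1).1 ∧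
        Sz R J G' m := by
    refine sz_ind hE (by (repeat (first | assumption | apply d_sz | apply d_isNat | apply defP_lt | apply defP_le | apply defT_mul | apply defT_add | apply (d_agree _ _).app | apply d_isOne.app | apply d_isZero.app | apply d_pairIn.app | apply d_isPair.app | exact Atom.var 0 fun _ => rfl | exact Atom.var 1 fun _ => rfl | exact Atom.var 2 fun _ => rfl | exact Atom.var 3 fun _ => rfl | exact Atom.var 4 fun _ => rfl | exact Atom.var 5 fun _ => rfl | exact Atom.var 6 fun _ => rfl | exact Atom.var 7 fun _ => rfl | exact Atom.var 8 fun _ => rfl | exact Atom.var 9 fun _ => rfl | exact Atom.const _ | apply Atom.defT | apply DefT.eq | apply DefT.mem | apply DefP.exEl | apply DefP.allEl | apply DefP.exM | apply DefP.allM | apply DefP.not | apply DefP.imp | apply DefP.iff | apply DefP.or | apply DefP.and))) ?_ ?_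
    · exact fun e n he _ j _ hj => absurd hj (he j)
    · intro G G₁ i n hG ih hG₁ j G' hj hG'
      refine ⟨n, rfl, ?_⟩
      by_cases hji : j = i.1
      · by_cases hi : E i.1 G
        · obtain ⟨m, hm, hm'⟩ := ih i.1 G' hi (fun x => by
            rw [hG', hG₁, hji]
            constructor
            · rintro ⟨h | h, h'⟩
              · exact ⟨h, h'⟩
              · exact absurd h h'
            · rintro ⟨h, h'⟩
              exact ⟨Or.inl h, h'⟩)
          obtain rfl : n = m + 1 := Subtype.ext hm
          exact sz_mono hE hm' (isNat_succ R (sz_nat hE hm')) (by linarith)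
        · obtain rfl : G' = G := hE.extensionality _ _ fun x => by
            rw [hG', hG₁, hji]
            constructor
            · rintro ⟨h | h, h'⟩
              · exact h
              · exact absurd h h'
            · intro h
              exact ⟨Or.inl h, fun e => hi (e ▸ h)⟩
          exact hG
      · have hjG : E j G := by
          rcases (hG₁ j).1 hj with h | h
          · exact h
          · exact absurd h hji
        obtain ⟨K, hK⟩ := hE.sep G (fun x => ¬ x = j) (by unfold D1; (repeat (first | assumption | apply d_sz | apply d_isNat | apply defP_lt | apply defP_le | apply defT_mul | apply defT_add | apply (d_agree _ _).app | apply d_isOne.app | apply d_isZero.app | apply d_pairIn.app | apply d_isPair.app | exact Atom.var 0 fun _ => rfl | exact Atom.var 1 fun _ => rfl | exact Atom.var 2 fun _ => rfl | exact Atom.var 3 fun _ => rfl | exact Atom.var 4 fun _ => rfl | exact Atom.var 5 fun _ => rfl | exact Atom.var 6 fun _ => rfl | exact Atom.var 7 fun _ => rfl | exact Atom.var 8 fun _ => rfl | exact Atom.var 9 fun _ =>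 rfl | exact Atom.const _ | apply Atom.defT | apply DefT.eq | apply DefT.mem | apply DefP.exEl | apply DefP.allEl | apply DefP.exM | apply DefP.allM | apply DefP.not | apply DefP.imp | apply DefP.iff | apply DefP.or | apply DefP.and)))
        obtain ⟨m, hm, hm'⟩ := ih j K hjG hK
        obtain rfl : n = m + 1 := Subtype.ext hm
        refine sz_insert i hm' fun x => ?_
        rw [hG', hG₁, hK]
        constructor
        · rintro ⟨h | h, h'⟩
          · exact Or.inl ⟨h, h'⟩
          · exact Or.inr h
        · rintro (⟨h, h'⟩ | h)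
          · exact ⟨Or.inl h, h'⟩
          · exact ⟨Or.inr h, fun e => hji (e.symm.trans h)⟩
  obtain ⟨m, hm, hm'⟩ := key G n h j G' hj hG'
  exact ⟨m, Subtype.ext hm, hm'⟩

variable (R J)

/-- The set `G ⊆ J` is finite in the sense of the model. -/
def Fin (G : M) : Prop := ∃ n, Sz R J G n

theorem d_fin {Γ : Type v} {c : Γ → ℕ → M} {G : Γ → M} (hG : Atom c G) :
    DefP E c (fun g => Fin R J (G g)) := by
  have h : DefP E (fun (x : M) (_ : ℕ) => x) (fun x => Fin R J x) := by
    unfold Fin
    (repeat (first | assumption | apply d_sz | apply d_isNat | apply defP_lt | apply defP_le | apply defT_mul | apply defT_add | apply (d_agree _ _).app | apply d_isOne.app | apply d_isZero.app | apply d_pairIn.app | apply d_isPair.app | exact Atom.var 0 fun _ => rfl | exact Atom.var 1 fun _ => rfl | exact Atom.var 2 fun _ => rfl | exact Atom.var 3 fun _ => rfl | exact Atom.var 4 fun _ => rfl | exact Atom.var 5 fun _ => rfl | exact Atom.var 6 fun _ => rfl | exact Atom.var 7 fun _ => rfl | exact Atom.var 8 fun _ => rfl | exact Atom.var 9 fun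 _ => rfl | exact Atom.const _ | apply Atom.defT | apply DefT.eq | apply DefT.mem | apply DefP.exEl | apply DefP.allEl | apply DefP.exM | apply DefP.allM | apply DefP.not | apply DefP.imp | apply DefP.iff | apply DefP.or | apply DefP.and))
  exact h.sub G fun _ => hG

variable {R J}

theorem fin_empty {e : M} (he : IsZero E e) : Fin R J e := ⟨0, sz_empty he (isNat_zero R)⟩

theorem fin_insert {G G' : M} (j : El E J) (h : Fin R J G)
    (hG' : ∀ x, E x G' ↔ E x G ∨ x = j.1) : Fin R J G' := by
  obtain ⟨n, hn⟩ := h
  exact ⟨n + 1, sz_insert j hn hG'⟩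

theorem fin_ind (hE : IsZF E) {Ψ : M → Prop} (hΨ : D1 E Ψ)
    (h0 : ∀ e, IsZero E e → Ψ e)
    (hs : ∀ G G' : M, ∀ j : El E J, Fin R J G → Ψ G →
      (∀ x, E x G' ↔ E x G ∨ x = j.1) → Ψ G') : ∀ G, Fin R J G → Ψ G := by
  rintro G ⟨n, hn⟩
  refine sz_ind hE (Φ := fun G _ => Ψ G) ?_ ?_ ?_ G n hn
  · exact hΨ.atom (Atom.var 0 fun _ => rfl)
  · exact fun e _ he _ => h0 e he
  · exact fun G G' j n hG h hG' => hs G G' j ⟨n, hG⟩ h hG'

theorem fin_sub (hE : IsZF E) {G : M} (h : Fin R J G) {x : M} (hx : E x G) : E x J :=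
  h.elim fun _ hn => sz_sub hE hn hx

theorem fin_subset (hE : IsZF E) {G : M} (h : Fin R J G) :
    ∀ H, (∀ x, E x H → E x G) → Fin R J H := by
  refine fin_ind hE (Ψ := fun G => ∀ H, (∀ x, E x H → E x G) → Fin R J H)
    (by unfold D1; (repeat (first | assumption | apply d_fin | apply d_sz | apply d_isNat | apply defP_lt | apply defP_le | apply defT_mul | apply defT_add | apply (d_agree _ _).app | apply d_isOne.app | apply d_isZero.app | apply d_pairIn.app | apply d_isPair.app | exact Atom.var 0 fun _ => rfl | exact Atom.var 1 fun _ => rfl | exact Atom.var 2 fun _ => rfl | exact Atom.var 3 fun _ => rfl | exact Atom.var 4 fun _ => rfl | exact Atom.var 5 fun _ => rfl | exact Atom.var 6 fun _ => rfl | exact Atom.var 7 fun _ => rfl | exact Atom.var 8 fun _ => rfl | exact Atom.var 9 fun _ => rfl | exact Atom.const _ | apply Atom.defT | apply DefT.eq | apply DefT.mem | apply DefP.exEl | apply DefP.allEl | apply DefP.exM | apply DefP.allM | apply DefP.not | apply DefP.imp | apply DefP.iff | apply DefP.or | apply DefP.and))) ?_ ?_ G h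
  · exact fun e he H hH => fin_empty fun x hx => he x (hH x hx)
  · intro G G' j hG ih hG' H hH
    obtain ⟨K, hK⟩ := hE.sep H (fun x => ¬ x = j.1) (by unfold D1; (repeat (first | assumption | apply d_fin | apply d_sz | apply d_isNat | apply defP_lt | apply defP_le | apply defT_mul | apply defT_add | apply (d_agree _ _).app | apply d_isOne.app | apply d_isZero.app | apply d_pairIn.app | apply d_isPair.app | exact Atom.var 0 fun _ => rfl | exact Atom.var 1 fun _ => rfl | exact Atom.var 2 fun _ => rfl | exact Atom.var 3 fun _ => rfl | exact Atom.var 4 fun _ => rfl | exact Atom.var 5 fun _ => rfl | exact Atom.var 6 fun _ => rfl | exact Atom.var 7 fun _ => rfl | exact Atom.var 8 fun _ => rfl | exact Atom.var 9 fun _ => rfl | exact Atom.const _ | apply Atom.defT | apply DefT.eq | apply DefT.mem | apply DefP.exEl | apply DefP.allEl | apply DefP.exM | apply DefP.allM | apply DefP.not | apply DefP.imp | apply DefP.iff | apply DefP.or | apply DefP.and)))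
    have hK' : Fin R J K := ih K fun x hx => by
      obtain ⟨h1, h2⟩ := (hK x).1 hx
      exact ((hG' x).1 (hH x h1)).resolve_right h2
    by_cases hj : E j.1 H
    · refine fin_insert j hK' fun x => ?_
      rw [hK]
      constructor
      · intro h
        by_cases hx : x = j.1
        · exact Or.inr hx
        · exact Or.inl ⟨h, hx⟩
      · rintro (h | h)
        · exact h.1
        · exact h ▸ hj
    · obtain rfl : K = H := hE.extensionality _ _ fun x => by
        rw [hK]
        exact ⟨fun h => h.1, fun h => ⟨h, fun e => hj (e ▸ h)⟩⟩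
      exact hK'

theorem fin_union (hE : IsZF E) {G H : M} (hG : Fin R J G) (hH : Fin R J H) :
    ∀ K, (∀ x, E x K ↔ E x G ∨ E x H) → Fin R J K := by
  refine fin_ind hE (Ψ := fun G => ∀ K, (∀ x, E x K ↔ E x G ∨ E x H) → Fin R J K)
    (by unfold D1; (repeat (first | assumption | apply d_fin | apply d_sz | apply d_isNat | apply defP_lt | apply defP_le | apply defT_mul | apply defT_add | apply (d_agree _ _).app | apply d_isOne.app | apply d_isZero.app | apply d_pairIn.app | apply d_isPair.app | exact Atom.var 0 fun _ => rfl | exact Atom.var 1 fun _ => rfl | exact Atom.var 2 fun _ => rfl | exact Atom.var 3 fun _ => rfl | exact Atom.var 4 fun _ => rfl | exact Atom.var 5 fun _ => rfl | exact Atom.var 6 fun _ => rfl | exact Atom.var 7 fun _ => rfl | exact Atom.var 8 fun _ => rfl | exact Atom.var 9 fun _ => rfl | exact Atom.const _ | apply Atom.defT | apply DefT.eq | apply DefT.mem | apply DefP.exEl | apply DefP.allEl | apply DefP.exM | apply DefP.allM | apply DefP.not | apply DefP.imp | apply DefP.iff | apply DefP.or | apply DefP.and)))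 ?_ ?_ G hG
  · intro e he K hK
    obtain rfl : K = H := hE.extensionality _ _ fun x => by
      rw [hK]
      exact ⟨fun h => h.resolve_left (he x), Or.inr⟩
    exact hH
  · intro G G' j hG ih hG' K hK
    obtain ⟨L, hL⟩ := hE.exists_union G H
    refine fin_insert j (ih L hL) fun x => ?_
    rw [hK, hG', hL]
    tauto

/-- Collection over a finite set. -/
theorem fin_collect (hE : IsZF E) {Q : M → M → Prop} (hQ : D2 E Q)
    (hmono : ∀ j F F', (∀ x, E x F → E x F') → Q j F → Q j F') {G : M} (hG : Fin R J G) :
    (∀ j, E j G → ∃ F, Fin R J F ∧ Q j F) → ∃ F, Fin R J F ∧ ∀ j, E j G → Q j F := by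
  refine fin_ind hE (Ψ := fun G => (∀ j, E j G → ∃ F, Fin R J F ∧ Q j F) →
    ∃ F, Fin R J F ∧ ∀ j, E j G → Q j F) ?_ ?_ ?_ G hG
  · unfold D1
    have h1 : ∀ (Γ : Type u) (c : Γ → ℕ → M), DefP E (ext (ext c))
        (fun p : (Γ × M) × M => Q p.1.2 p.2) := fun Γ c =>
      hQ.atom (Atom.var 1 fun _ => rfl) (Atom.var 0 fun _ => rfl)
    have h2 : ∀ (Γ : Type u) (c : Γ → ℕ → M), DefP E (ext (ext c))
        (fun p : (Γ × M) × M => Q p.2 p.1.2) := fun Γ c =>
      hQ.atom (Atom.var 0 fun _ => rfl) (Atom.var 1 fun _ => rfl)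
    repeat (first | exact h1 _ _ | exact h2 _ _ | (first | assumption | apply d_fin | apply d_sz | apply d_isNat | apply defP_lt | apply defP_le | apply defT_mul | apply defT_add | apply (d_agree _ _).app | apply d_isOne.app | apply d_isZero.app | apply d_pairIn.app | apply d_isPair.app | exact Atom.var 0 fun _ => rfl | exact Atom.var 1 fun _ => rfl | exact Atom.var 2 fun _ => rfl | exact Atom.var 3 fun _ => rfl | exact Atom.var 4 fun _ => rfl | exact Atom.var 5 fun _ => rfl | exact Atom.var 6 fun _ => rfl | exact Atom.var 7 fun _ => rfl | exact Atom.var 8 fun _ => rfl | exact Atom.var 9 fun _ => rfl | exact Atom.const _ | apply Atom.defT | apply DefT.eq | apply DefT.mem | apply DefP.exEl | apply DefP.allEl | apply DefP.exM | apply DefP.allM | apply DefP.not | apply DefP.imp | apply DefP.iff | apply DefP.or | apply DefP.and))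
  · intro e he _
    exact ⟨e, fin_empty he, fun j hj => absurd hj (he j)⟩
  · intro G G' i _ ih hG' h
    obtain ⟨F₁, hF₁, h₁⟩ := ih fun j hj => h j ((hG' j).2 (Or.inl hj))
    obtain ⟨F₂, hF₂, h₂⟩ := h i.1 ((hG' i.1).2 (Or.inr rfl))
    obtain ⟨F, hF⟩ := hE.exists_union F₁ F₂
    refine ⟨F, fin_union hE hF₁ hF₂ F hF, fun j hj => ?_⟩
    rcases (hG' j).1 hj with hj | rfl
    · exact hmono j F₁ F (fun x hx => (hF x).2 (Or.inl hx)) (h₁ j hj)
    · exact hmono _ F₂ F (fun x hx => (hF x).2 (Or.inr hx)) h₂

end Size

end Pool.Agent.SZD
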