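import Pool.Agent.Helper70_SZD.Top

/-!
# Cantor cubes are strongly zero-dimensional in every model of ZF
-/

namespace Pool.Agent.SZD

universe u v w

variable {M : Type u} {E : M → M → Prop}

/-- A function of the model from `X` to the reals of the model, as a function. -/
structure RFun (R : Reals E) (X : M) where
  /-- the graph -/
  graph : M
  /-- the function -/
  toFun : El E X → El E R.carrier
  spec : ∀ (x : El E X) (r : M), PairIn E x.1 r graph ↔ r = (toFun x).1

theorem defT_fn {R : Reals E} {X : M} (f : RFun R X) {Γ : Type v} {c : Γ → ℕ → M}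
    {t : Γ → El E X} (ht : DefT E c (fun g => (t g).1)) :
    DefT E c (fun g => (f.toFun (t g)).1) :=
  (d_pairIn.app ht.weaken (Atom.defT (Atom.var 0 fun _ => rfl : Atom (ext c) (fun p => p.2)))
    (Atom.const f.graph).defT).congr fun p => (f.spec (t p.1) p.2).symm

section Main

variable (hE : IsZF E) {J X T o : M} (ho : IsOne E o) (hX : IsCube E X J)
  (hT : IsProductTopology E T X J) {R : Reals E} (f : RFun R X)
  (h01 : ∀ x, 0 ≤ f.toFun x ∧ f.toFun x ≤ 1)

variable (J o) in
/-- The coordinate `j` is essential for `f`, with complexity `m`. -/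
def DJ (m : El E R.carrier) (j : M) : Prop :=
  ∃ G, Sz R J G m ∧ E j G ∧ ∃ x y : El E X,
    (∀ i, E i J → ¬ i = j → (PairIn E i o x.1 ↔ PairIn E i o y.1)) ∧ ∃ a : El E R.carrier,
      (∀ z : El E X, Agree E J o G x.1 z.1 → f.toFun z < a) ∧
        ∀ z : El E X, Agree E J o G y.1 z.1 → 1 + m * a < m * f.toFun z

theorem d_dj {Γ : Type v} {c : Γ → ℕ → M} {t : Γ → El E R.carrier} {s : Γ → M}
    (ht : Atom c (fun g => (t g).1)) (hs : Atom c s) :
    DefP E c (fun g => DJ J o f (t g) (s g)) := by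
  have h : DefP E (fun (p : El E R.carrier × M) => scons p.1.1 (fun _ => p.2))
      (fun p => DJ J o f p.1 p.2) := by
    unfold DJ
    (repeat (first | assumption | apply defT_fn | apply d_fin | apply d_sz | apply d_isNat | apply defP_lt | apply defP_le | apply defT_mul | apply defT_add | apply (d_agree _ _).app | apply d_isOne.app | apply d_isZero.app | apply d_pairIn.app | apply d_isPair.app | exact Atom.var 0 fun _ => rfl | exact Atom.var 1 fun _ => rfl | exact Atom.var 2 fun _ => rfl | exact Atom.var 3 fun _ => rfl | exact Atom.var 4 fun _ => rfl | exact Atom.var 5 fun _ => rfl | exact Atom.var 6 fun _ => rfl | exact Atom.var 7 fun _ => rfl | exact Atom.var 8 fun _ => rfl | exact Atom.var 9 fun _ => rfl | exact Atom.const _ | apply Atom.defT | apply DefT.eq | apply DefT.mem | apply DefP.exEl | apply DefP.allEl | apply DefP.exM | apply DefP.allM | apply DefP.not | apply DefP.imp | apply DefP.iff | apply DefP.or | apply DefP.and))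
  exact h.sub (fun g => (t g, s g)) fun n => by
    cases n with
    | zero => exact ht
    | succ n => exact hs

include hE

theorem dj_mono {m m' : El E R.carrier} {j : M} (h : DJ J o f m j) (hm' : IsNat R m')
    (hmm : m ≤ m') : DJ J o f m' j := by
  obtain ⟨G, hG, hj, x, y, hxy, a, h1, h2⟩ := h
  refine ⟨G, sz_mono hE hG hm' hmm, hj, x, y, hxy, a, h1, fun z hz => ?_⟩
  have h3 := h2 z hz
  have h4 : 0 ≤ m := nat_nonneg R hE m (sz_nat hE hG)
  have h5 : a < f.toFun z := by
    by_contra hcon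
    push Not at hcon
    nlinarith
  nlinarith

include ho hX h01

theorem dj_bound (m : El E R.carrier) (hm : IsNat R m) :
    ∃ F, Fin R J F ∧ ∀ j, DJ J o f m j → E j F := by
  have hm0 := nat_nonneg R hE m hm
  rcases hm0.eq_or_lt with h0 | hm0
  · obtain ⟨e, he⟩ := hE.exists_zero
    refine ⟨e, fin_empty he, fun j hj => ?_⟩
    obtain ⟨G, hG, hj, x, y, hxy, a, h1, h2⟩ := hj
    have := h2 y Agree.refl
    rw [← h0] at this
    norm_num at this
  have key : ∀ l, IsNat R l → ∃ F, Fin R J F ∧ ∀ j, (∃ G, Sz R J G m ∧ E j G ∧ ∃ x y : El E X,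
      (∀ i, E i J → ¬ i = j → (PairIn E i o x.1 ↔ PairIn E i o y.1)) ∧
      ∃ a : El E R.carrier, m * a + m * a ≤ l ∧
      (∀ z : El E X, Agree E J o G x.1 z.1 → f.toFun z < a) ∧
        ∀ z : El E X, Agree E J o G y.1 z.1 → 1 + m * a < m * f.toFun z) → E j F := by
    refine nat_ind R hE (by (repeat (first | assumption | apply d_dj | apply defT_fn | apply d_fin | apply d_sz | apply d_isNat | apply defP_lt | apply defP_le | apply defT_mul | apply defT_add | apply (d_agree _ _).app | apply d_isOne.app | apply d_isZero.app | apply d_pairIn.app | apply d_isPair.app | exact Atom.var 0 fun _ => rfl | exact Atom.var 1 fun _ => rfl | exact Atom.var 2 fun _ => rfl | exact Atom.var 3 fun _ => rfl | exact Atom.var 4 fun _ => rfl | exact Atom.var 5 fun _ => rfl | exact Atom.var 6 fun _ => rfl | exact Atom.var 7 fun _ => rfl | exact Atom.var 8 fun _ => rfl | exact Atom.var 9 fun _ => rfl | exact Atom.const _ | apply Atom.defT | apply DefT.eq | apply DefT.mem | apply DefP.exEl | apply DefP.allEl |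 apply DefP.exM | apply DefP.allM | apply DefP.not | apply DefP.imp | apply DefP.iff | apply DefP.or | apply DefP.and))) ?_ ?_
    · obtain ⟨e, he⟩ := hE.exists_zero
      refine ⟨e, fin_empty he, fun j hj => ?_⟩
      obtain ⟨G, hG, hj, x, y, hxy, a, ha, h1, h2⟩ := hj
      have h3 := h1 x Agree.refl
      have h4 := (h01 x).1
      have h5 : 0 < a := lt_of_le_of_lt h4 h3
      have h6 := mul_pos hm0 h5
      linarith
    · intro l hl ih
      obtain ⟨F, hF, hF'⟩ := ih
      obtain ⟨U, hU⟩ := hE.sepEl X (fun z => m * f.toFun z + m * f.toFun z < l + 1) (by (repeat (first | assumption | apply d_dj | apply defT_fn | apply d_fin | apply d_sz | apply d_isNat | apply defP_lt | apply defP_le | apply defT_mul | apply defT_add | apply (d_agree _ _).app | apply d_isOne.app | apply d_isZero.app | apply d_pairIn.app | apply d_isPair.app | exact Atom.var 0 fun _ => rfl | exact Atom.var 1 fun _ => rfl | exact Atom.var 2 fun _ => rfl | exact Atom.var 3 fun _ => rfl | exact Atom.var 4 fun _ => rfl | exact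 Atom.var 5 fun _ => rfl | exact Atom.var 6 fun _ => rfl | exact Atom.var 7 fun _ => rfl | exact Atom.var 8 fun _ => rfl | exact Atom.var 9 fun _ => rfl | exact Atom.const _ | apply Atom.defT | apply DefT.eq | apply DefT.mem | apply DefP.exEl | apply DefP.allEl | apply DefP.exM | apply DefP.allM | apply DefP.not | apply DefP.imp | apply DefP.iff | apply DefP.or | apply DefP.and)))
      have hU' : ∀ z : El E X, E z.1 U ↔ m * f.toFun z + m * f.toFun z < l + 1 := fun z => by
        rw [hU]
        exact ⟨fun ⟨_, h⟩ => h, fun h => ⟨z.2, h⟩⟩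
      obtain ⟨F₁, hF₁, hF₁'⟩ := finite_lemma hE ho hX R m hm U
      obtain ⟨F₂, hF₂⟩ := hE.exists_union F F₁
      refine ⟨F₂, fin_union hE hF hF₁ F₂ hF₂, fun j hj => ?_⟩
      rw [hF₂]
      obtain ⟨G, hG, hjG, x, y, hxy, a, ha, h1, h2⟩ := hj
      by_cases hal : m * a + m * a ≤ l
      · exact Or.inl (hF' j ⟨G, hG, hjG, x, y, hxy, a, hal, h1, h2⟩)
      right
      push Not at hal
      by_contra hjF
      have hjJ : E j J := sz_sub hE hG hjG
      obtain ⟨z, hz, hz'⟩ := hF₁' G hG x fun z hz => (hU' z).2 (by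
        have := mul_lt_mul_of_pos_left (h1 z hz) hm0
        linarith)
      obtain ⟨z₁, hz₁⟩ := exists_upd hE ho hX ⟨j, hjJ⟩ y z
      have h3 := (hU' z₁).1 (hz' z₁ fun i hi hiF => by
        have hij : ¬ i = j := fun e => hjF (e ▸ hiF)
        exact (hz₁.1 i hi hij).symm)
      have h4 := h2 z₁ fun i hi hiG => by
        by_cases hij : i = j
        · rw [hij]
          exact hz₁.2.symm
        · rw [hz₁.1 i hi hij, ← hz i hi hiG]
          exact (hxy i hi hij).symm
      linarith
  obtain ⟨F, hF, hF'⟩ := key (m + m) (nat_add R hE hm m hm)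
  refine ⟨F, hF, fun j hj => ?_⟩
  obtain ⟨G, hG, hjG, x, y, hxy, a, h1, h2⟩ := hj
  refine hF' j ⟨G, hG, hjG, x, y, hxy, a, ?_, h1, h2⟩
  have h3 := h2 y Agree.refl
  have h4 := (h01 y).2
  have h5 := mul_le_mul_of_nonneg_left h4 hm0.le
  linarith

omit h01 ho hX

variable (hcont : ∀ x : El E X, ∀ a b : El E R.carrier, a < f.toFun x → f.toFun x < b →
  ∃ G, Fin R J G ∧ ∀ z : El E X, Agree E J o G x.1 z.1 → a < f.toFun z ∧ f.toFun z < b)

include hcont

theorem single_step (j : El E J) (hj : ∀ m, IsNat R m → ¬ DJ J o f m j.1) (x y : El E X)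
    (hxy : ∀ i, E i J → ¬ i = j.1 → (PairIn E i o x.1 ↔ PairIn E i o y.1)) :
    ¬ f.toFun x < f.toFun y := by
  intro hlt
  set d := f.toFun y - f.toFun x with hd
  have hd0 : 0 < d := by linarith
  obtain ⟨n, hn, hn'⟩ := exists_nat_gt R hE (3 / d)
  obtain ⟨G₁, hG₁, h1⟩ := hcont x (f.toFun x - 1) (f.toFun x + d / 3) (by linarith) (by linarith)
  obtain ⟨G₂, hG₂, h2⟩ := hcont y (f.toFun x + 2 * d / 3) (f.toFun y + 1) (by linarith)
    (by linarith)
  obtain ⟨G₃, hG₃⟩ := hE.exists_union G₁ G₂
  have hfG₃ := fin_union hE hG₁ hG₂ G₃ hG₃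
  obtain ⟨s, hs⟩ := hE.pairing j.1 j.1
  obtain ⟨G, hG⟩ := hE.exists_union G₃ s
  have hfG : Fin R J G := fin_insert j hfG₃ fun x => by rw [hG, hs]; tauto
  obtain ⟨k, hk⟩ := hfG
  have hkn : IsNat R k := sz_nat hE hk
  have hm : IsNat R (k + n) := nat_add R hE hkn n hn
  have hk0 := nat_nonneg R hE k hkn
  have hn0 := nat_nonneg R hE n hn
  refine hj (k + n) hm ⟨G, sz_mono hE hk hm (by linarith), (hG _).2 (Or.inr ((hs _).2
    (Or.inl rfl))), x, y, hxy, f.toFun x + d / 3, fun z hz => ?_, fun z hz => ?_⟩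
  · exact (h1 z (hz.mono fun i hi => (hG i).2 (Or.inl ((hG₃ i).2 (Or.inl hi))))).2
  · have h3 := (h2 z (hz.mono fun i hi => (hG i).2 (Or.inl ((hG₃ i).2 (Or.inr hi))))).1
    have h4 : 3 < n * d := by
      rwa [div_lt_iff₀ hd0] at hn'
    have h5 : (k + n) * (f.toFun x + 2 * d / 3) ≤ (k + n) * f.toFun z :=
      mul_le_mul_of_nonneg_left h3.le (by linarith)
    nlinarith [mul_nonneg hk0 hd0.le]

include ho hX

theorem finite_step (H : M) (hH : Fin R J H) :
    (∀ j, E j H → ∀ m, IsNat R m → ¬ DJ J o f m j) → ∀ x y : El E X,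
      (∀ i, E i J → ¬ E i H → (PairIn E i o x.1 ↔ PairIn E i o y.1)) →
        (f.toFun x).1 = (f.toFun y).1 := by
  refine fin_ind hE (Ψ := fun H => (∀ j, E j H → ∀ m, IsNat R m → ¬ DJ J o f m j) →
    ∀ x y : El E X, (∀ i, E i J → ¬ E i H → (PairIn E i o x.1 ↔ PairIn E i o y.1)) →
        (f.toFun x).1 = (f.toFun y).1) (by unfold D1; (repeat (first | assumption | apply d_dj | apply defT_fn | apply d_fin | apply d_sz | apply d_isNat | apply defP_lt | apply defP_le | apply defT_mul | apply defT_add | apply (d_agree _ _).app | apply d_isOne.app | apply d_isZero.app | apply d_pairIn.app | apply d_isPair.app | exact Atom.var 0 fun _ => rfl | exact Atom.var 1 fun _ => rfl | exact Atom.var 2 fun _ => rfl | exact Atom.var 3 fun _ => rfl | exact Atom.var 4 fun _ => rfl | exact Atom.var 5 fun _ => rfl | exact Atom.var 6 fun _ => rfl | exact Atom.var 7 fun _ => rfl | exact Atom.var 8 fun _ => rfl | exact Atom.var 9 fun _ => rfl | exact Atom.const _ | apply Atom.defT | apply DefT.eq | apply DefT.mem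 | apply DefP.exEl | apply DefP.allEl | apply DefP.exM | apply DefP.allM | apply DefP.not | apply DefP.imp | apply DefP.iff | apply DefP.or | apply DefP.and))) ?_ ?_ H hH
  · intro e he _ x y hxy
    have : x = y := Subtype.ext (cube_ext hE ho hX x.2 y.2 fun i hi => hxy i hi (he i))
    rw [this]
  · intro H H' j _ ih hH' hne x y hxy
    obtain ⟨z, hz⟩ := exists_upd hE ho hX j y x
    have hj : ∀ m, IsNat R m → ¬ DJ J o f m j.1 := hne j.1 ((hH' _).2 (Or.inr rfl))
    have h1 : f.toFun x = f.toFun z := by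
      refine le_antisymm ?_ ?_
      · exact not_lt.1 (single_step hE f hcont j hj z x fun i hi hij => hz.1 i hi hij)
      · exact not_lt.1 (single_step hE f hcont j hj x z fun i hi hij =>
          (hz.1 i hi hij).symm)
    rw [h1]
    refine ih (fun i hi => hne i ((hH' _).2 (Or.inl hi))) z y fun i hi hiH => ?_
    by_cases hij : i = j.1
    · rw [hij]
      exact hz.2
    · rw [hz.1 i hi hij]
      exact hxy i hi fun h => ((hH' i).1 h).elim hiH hij

theorem exists_level (x : El E X) : ∃ m, IsNat R m ∧ ∀ y : El E X,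
    (∀ i, E i J → DJ J o f m i → (PairIn E i o x.1 ↔ PairIn E i o y.1)) →
      f.toFun x - 1 / 2 < f.toFun y ∧ f.toFun y < f.toFun x + 1 / 2 := by
  obtain ⟨G, hG, hG'⟩ := hcont x (f.toFun x - 1 / 2) (f.toFun x + 1 / 2) (by linarith)
    (by linarith)
  have key : ∀ G, Fin R J G → ∃ m : El E R.carrier, IsNat R m ∧ ∀ i, E i G →
      (∃ m' : El E R.carrier, IsNat R m' ∧ DJ J o f m' i) → DJ J o f m i := by
    refine fin_ind hE (by unfold D1; (repeat (first | assumption | apply d_dj | apply defT_fn | apply d_fin | apply d_sz | apply d_isNat | apply defP_lt | apply defP_le | apply defT_mul | apply defT_add | apply (d_agree _ _).app | apply d_isOne.app | apply d_isZero.app | apply d_pairIn.app | apply d_isPair.app | exact Atom.var 0 fun _ => rfl | exact Atom.var 1 fun _ => rfl | exact Atom.var 2 fun _ => rfl | exact Atom.var 3 fun _ => rfl | exact Atom.var 4 fun _ => rfl | exact Atom.var 5 fun _ => rfl | exact Atom.var 6 fun _ => rfl | exact Atom.var 7 fun _ => rfl | exact Atom.var 8 fun _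 => rfl | exact Atom.var 9 fun _ => rfl | exact Atom.const _ | apply Atom.defT | apply DefT.eq | apply DefT.mem | apply DefP.exEl | apply DefP.allEl | apply DefP.exM | apply DefP.allM | apply DefP.not | apply DefP.imp | apply DefP.iff | apply DefP.or | apply DefP.and))) ?_ ?_
    · exact fun e he => ⟨0, isNat_zero R, fun i hi => absurd hi (he i)⟩
    · intro G G' j _ ih hG'
      obtain ⟨m, hm, hm'⟩ := ih
      by_cases hj : ∃ m' : El E R.carrier, IsNat R m' ∧ DJ J o f m' j.1
      · obtain ⟨m', hm1, hm2⟩ := hj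
        have h1 := nat_nonneg R hE m hm
        have h2 := nat_nonneg R hE m' hm1
        have h3 := nat_add R hE hm m' hm1
        refine ⟨m + m', h3, fun i hi hex => ?_⟩
        rcases (hG' i).1 hi with hi | rfl
        · exact dj_mono hE f (hm' i hi hex) h3 (by linarith)
        · exact dj_mono hE f hm2 h3 (by linarith)
      · refine ⟨m, hm, fun i hi hex => ?_⟩
        rcases (hG' i).1 hi with hi | rfl
        · exact hm' i hi hex
        · exact absurd hex hj
  obtain ⟨m, hm, hm'⟩ := key G hG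
  refine ⟨m, hm, fun y hy => ?_⟩
  obtain ⟨y', hy'⟩ := exists_mix hE ho hX G x y
  have h1 := hG' y' fun i hi hiG => by
    have := hy' ⟨i, hi⟩
    simp only at this
    tauto
  obtain ⟨H, hH⟩ := hE.sep G (fun i => ¬ ∃ m' : El E R.carrier, IsNat R m' ∧ DJ J o f m' i)
    (by unfold D1; (repeat (first | assumption | apply d_dj | apply defT_fn | apply d_fin | apply d_sz | apply d_isNat | apply defP_lt | apply defP_le | apply defT_mul | apply defT_add | apply (d_agree _ _).app | apply d_isOne.app | apply d_isZero.app | apply d_pairIn.app | apply d_isPair.app | exact Atom.var 0 fun _ => rfl | exact Atom.var 1 fun _ => rfl | exact Atom.var 2 fun _ => rfl | exact Atom.var 3 fun _ => rfl | exact Atom.var 4 fun _ => rfl | exact Atom.var 5 fun _ => rfl | exact Atom.var 6 fun _ => rfl | exact Atom.var 7 fun _ => rfl | exact Atom.var 8 fun _ => rfl | exact Atom.var 9 fun _ => rfl | exact Atom.const _ | apply Atom.defT | apply DefT.eq | apply DefT.mem | apply DefP.exEl | apply DefP.allEl | apply DefP.exM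 | apply DefP.allM | apply DefP.not | apply DefP.imp | apply DefP.iff | apply DefP.or | apply DefP.and)))
  have h2 : (f.toFun y').1 = (f.toFun y).1 := by
    refine finite_step hE ho hX f hcont H (fin_subset hE hG H fun i hi => ((hH i).1 hi).1)
      ?_ y' y fun i hi hiH => ?_
    · intro j hj m hm hd
      exact ((hH j).1 hj).2 ⟨m, hm, hd⟩
    · have h3 := hy' ⟨i, hi⟩
      simp only at h3
      by_cases hiG : E i G
      · have h4 : DJ J o f m i := by
          refine hm' i hiG ?_
          by_contra hcon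
          exact hiH ((hH i).2 ⟨hiG, hcon⟩)
        have h5 := hy i hi h4
        tauto
      · tauto
  rw [← Subtype.ext h2]
  exact h1

include hT h01

/-- Two sets separated by a continuous function are separated by a clopen set. -/
theorem exists_clopen (A : M) : ∃ C C', E C T ∧ E C' T ∧ (∀ x, E x C' ↔ E x X ∧ ¬ E x C) ∧
    (∀ x : El E X, E x.1 A → f.toFun x = 0 → E x.1 C) ∧
      ∀ x : El E X, (∀ y : El E X, E y.1 A → f.toFun y = 0) → f.toFun x = 1 → ¬ E x.1 C := by
  obtain ⟨C, hC⟩ := hE.sepEl X (fun x => ∃ m : El E R.carrier, IsNat R m ∧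
    (∀ y z : El E X,
      (∀ i, E i J → DJ J o f m i → (PairIn E i o x.1 ↔ PairIn E i o y.1)) →
      (∀ i, E i J → DJ J o f m i → (PairIn E i o x.1 ↔ PairIn E i o z.1)) →
        f.toFun y < f.toFun z + 1) ∧
    ∃ a : El E X, E a.1 A ∧
      ∀ i, E i J → DJ J o f m i → (PairIn E i o x.1 ↔ PairIn E i o a.1)) (by (repeat (first | assumption | apply d_dj | apply defT_fn | apply d_fin | apply d_sz | apply d_isNat | apply defP_lt | apply defP_le | apply defT_mul | apply defT_add | apply (d_agree _ _).app | apply d_isOne.app | apply d_isZero.app | apply d_pairIn.app | apply d_isPair.app | exact Atom.var 0 fun _ => rfl | exact Atom.var 1 fun _ => rfl | exact Atom.var 2 fun _ => rfl | exact Atom.var 3 fun _ => rfl | exact Atom.var 4 fun _ => rfl | exact Atom.var 5 fun _ => rfl | exact Atom.var 6 fun _ => rfl | exact Atom.var 7 fun _ => rfl | exact Atom.var 8 fun _ => rfl | exact Atom.var 9 fun _ => rfl | exact Atom.const _ | apply Atom.defT | apply DefT.eq | apply DefT.mem | apply DefP.exEl |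 apply DefP.allEl | apply DefP.exM | apply DefP.allM | apply DefP.not | apply DefP.imp | apply DefP.iff | apply DefP.or | apply DefP.and)))
  have hC' : ∀ x : El E X, E x.1 C ↔ ∃ m : El E R.carrier, IsNat R m ∧
      (∀ y z : El E X,
        (∀ i, E i J → DJ J o f m i → (PairIn E i o x.1 ↔ PairIn E i o y.1)) →
        (∀ i, E i J → DJ J o f m i → (PairIn E i o x.1 ↔ PairIn E i o z.1)) →
          f.toFun y < f.toFun z + 1) ∧
      ∃ a : El E X, E a.1 A ∧
        ∀ i, E i J → DJ J o f m i → (PairIn E i o x.1 ↔ PairIn E i o a.1) := fun x => by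
    rw [hC]
    exact ⟨fun ⟨_, h⟩ => h, fun h => ⟨x.2, h⟩⟩
  obtain ⟨C', hCC⟩ := hE.sep X (fun x => ¬ E x C) (by unfold D1; (repeat (first | assumption | apply d_dj | apply defT_fn | apply d_fin | apply d_sz | apply d_isNat | apply defP_lt | apply defP_le | apply defT_mul | apply defT_add | apply (d_agree _ _).app | apply d_isOne.app | apply d_isZero.app | apply d_pairIn.app | apply d_isPair.app | exact Atom.var 0 fun _ => rfl | exact Atom.var 1 fun _ => rfl | exact Atom.var 2 fun _ => rfl | exact Atom.var 3 fun _ => rfl | exact Atom.var 4 fun _ => rfl | exact Atom.var 5 fun _ => rfl | exact Atom.var 6 fun _ => rfl | exact Atom.var 7 fun _ => rfl | exact Atom.var 8 fun _ => rfl | exact Atom.var 9 fun _ => rfl | exact Atom.const _ | apply Atom.defT | apply DefT.eq | apply DefT.mem | apply DefP.exEl | apply DefP.allEl | apply DefP.exM | apply DefP.allM | apply DefP.not | apply DefP.imp | apply DefP.iff | apply DefP.or | apply DefP.and)))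
  have hlev : ∀ x : El E X, ∃ m : El E R.carrier, IsNat R m ∧ (∀ y z : El E X,
      (∀ i, E i J → DJ J o f m i → (PairIn E i o x.1 ↔ PairIn E i o y.1)) →
      (∀ i, E i J → DJ J o f m i → (PairIn E i o x.1 ↔ PairIn E i o z.1)) →
        f.toFun y < f.toFun z + 1) := by
    intro x
    obtain ⟨m, hm, hm'⟩ := exists_level hE ho hX f hcont x
    refine ⟨m, hm, fun y z hy hz => ?_⟩
    have h1 := (hm' y hy).2
    have h2 := (hm' z hz).1
    linarith
  have hset : ∀ m : El E R.carrier, IsNat R m → ∃ G, Fin R J G ∧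
      ∀ i, E i G ↔ E i J ∧ DJ J o f m i := by
    intro m hm
    obtain ⟨F, hF, hF'⟩ := dj_bound hE ho hX f h01 m hm
    obtain ⟨G, hG⟩ := hE.sep J (fun i => DJ J o f m i) (by unfold D1; (repeat (first | assumption | apply d_dj | apply defT_fn | apply d_fin | apply d_sz | apply d_isNat | apply defP_lt | apply defP_le | apply defT_mul | apply defT_add | apply (d_agree _ _).app | apply d_isOne.app | apply d_isZero.app | apply d_pairIn.app | apply d_isPair.app | exact Atom.var 0 fun _ => rfl | exact Atom.var 1 fun _ => rfl | exact Atom.var 2 fun _ => rfl | exact Atom.var 3 fun _ => rfl | exact Atom.var 4 fun _ => rfl | exact Atom.var 5 fun _ => rfl | exact Atom.var 6 fun _ => rfl | exact Atom.var 7 fun _ => rfl | exact Atom.var 8 fun _ => rfl | exact Atom.var 9 fun _ => rfl | exact Atom.const _ | apply Atom.defT | apply DefT.eq | apply DefT.mem | apply DefP.exEl | apply DefP.allEl | apply DefP.exM | apply DefP.allM | apply DefP.not | apply DefP.imp | apply DefP.iff | apply DefP.or | apply DefP.and)))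
    exact ⟨G, fin_subset hE hF G fun i hi => hF' i ((hG i).1 hi).2, hG⟩
  refine ⟨C, C', ?_, ?_, hCC, ?_, ?_⟩
  · refine open_of_cylinders hE ho hX hT R (fun x hx => ((hC x).1 hx).1) fun x hx => ?_
    obtain ⟨m, hm, h1, a, ha, h2⟩ := (hC' x).1 hx
    obtain ⟨G, hG, hG'⟩ := hset m hm
    refine ⟨G, hG, fun y hy => (hC' y).2 ⟨m, hm, fun z z' hz hz' => ?_, a, ha, fun i hi hd => ?_⟩⟩
    · refine h1 z z' (fun i hi hd => ?_) (fun i hi hd => ?_)
      · exact (hy i hi ((hG' i).2 ⟨hi, hd⟩)).trans (hz i hi hd)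
      · exact (hy i hi ((hG' i).2 ⟨hi, hd⟩)).trans (hz' i hi hd)
    · exact (hy i hi ((hG' i).2 ⟨hi, hd⟩)).symm.trans (h2 i hi hd)
  · refine open_of_cylinders hE ho hX hT R (fun x hx => ((hCC x).1 hx).1) fun x hx => ?_
    have hxC := ((hCC _).1 hx).2
    obtain ⟨m, hm, h1⟩ := hlev x
    obtain ⟨G, hG, hG'⟩ := hset m hm
    refine ⟨G, hG, fun y hy => (hCC _).2 ⟨y.2, fun hyC => hxC ?_⟩⟩
    obtain ⟨m', hm', h1', a, ha, h2⟩ := (hC' y).1 hyC
    rcases le_total m m' with hmm | hmm
    · refine (hC' x).2 ⟨m, hm, h1, a, ha, fun i hi hd => ?_⟩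
      exact (hy i hi ((hG' i).2 ⟨hi, hd⟩)).trans (h2 i hi (dj_mono hE f hd hm' hmm))
    · have hy' : ∀ i, E i J → DJ J o f m' i → (PairIn E i o x.1 ↔ PairIn E i o y.1) :=
        fun i hi hd => hy i hi ((hG' i).2 ⟨hi, dj_mono hE f hd hm hmm⟩)
      refine (hC' x).2 ⟨m', hm', fun z z' hz hz' => ?_, a, ha, fun i hi hd => ?_⟩
      · exact h1' z z' (fun i hi hd => (hy' i hi hd).symm.trans (hz i hi hd))
          (fun i hi hd => (hy' i hi hd).symm.trans (hz' i hi hd))
      · exact (hy' i hi hd).trans (h2 i hi hd)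
  · intro x hxA hx0
    obtain ⟨m, hm, h1⟩ := hlev x
    exact (hC' x).2 ⟨m, hm, h1, x, hxA, fun _ _ _ => Iff.rfl⟩
  · intro x hA hx1 hxC
    obtain ⟨m, hm, h1, a, ha, h2⟩ := (hC' x).1 hxC
    have := h1 x a (fun _ _ _ => Iff.rfl) h2
    rw [hx1, hA a ha] at this
    linarith

end Main

/-- Every Cantor cube is strongly zero-dimensional. -/
theorem cube_stronglyZeroDimensional (hE : IsZF E) {J X T : M} (hX : IsCube E X J)
    (hT : IsProductTopology E T X J) : StronglyZeroDimensional E T X := by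
  obtain ⟨o, ho⟩ := hE.exists_one
  intro A B hAX hBX hAB
  obtain ⟨R, f, hf, h01, hcont, hA, hB⟩ := hAB
  have hval : ∀ x : El E X, ∃ r : El E R.carrier, ∀ r' : M, PairIn E x.1 r' f ↔ r' = r.1 := by
    intro x
    obtain ⟨r, hr, hu⟩ := hf.2 x.1 x.2
    have hrc : E r R.carrier := by
      obtain ⟨p, hp, hpf⟩ := hr
      obtain ⟨x', r', -, hr', hp'⟩ := hf.1 p hpf
      obtain ⟨-, rfl⟩ := isPair_inj_left hE hp hp'
      exact hr'
    refine ⟨⟨r, hrc⟩, fun r' => ⟨fun h => hu r' h, ?_⟩⟩
    rintro rfl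
    exact hr
  choose F hF using hval
  let f' : RFun R X := ⟨f, F, hF⟩
  have h01' : ∀ x, 0 ≤ f'.toFun x ∧ f'.toFun x ≤ 1 := fun x => h01 x.1 (F x) ((hF x _).2 rfl)
  have hcont' : ∀ x : El E X, ∀ a b : El E R.carrier, a < f'.toFun x → f'.toFun x < b →
      ∃ G, Fin R J G ∧ ∀ z : El E X, Agree E J o G x.1 z.1 →
        a < f'.toFun z ∧ f'.toFun z < b := by
    intro x a b ha hb
    obtain ⟨O, hO, hxO, h⟩ := hcont x.1 (F x) a b ((hF x _).2 rfl) ha hb
    obtain ⟨G, hG, hG'⟩ := exists_cylinder hE ho hX hT R hO x hxO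
    exact ⟨G, hG, fun z hz => h z.1 (F z) (hG' z hz) ((hF z _).2 rfl)⟩
  have hA' : ∀ x : El E X, E x.1 A → f'.toFun x = 0 := fun x hx =>
    (Subtype.ext ((hF x _).1 (hA x.1 hx))).symm
  have hB' : ∀ x : El E X, E x.1 B → f'.toFun x = 1 := fun x hx =>
    (Subtype.ext ((hF x _).1 (hB x.1 hx))).symm
  obtain ⟨C, C', h1, h2, h3, h4, h5⟩ := exists_clopen hE ho hX hT f' h01' hcont' A
  refine ⟨C, C', h1, h2, h3, fun x hx => ?_, fun x hx => ?_⟩
  · exact h4 ⟨x, hAX x hx⟩ hx (hA' ⟨x, hAX x hx⟩ hx)
  · exact h5 ⟨x, hBX x hx⟩ hA' (hB' ⟨x, hBX x hx⟩ hx)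

/-! ### Existence of the cube and of its topology -/

theorem exists_cube (hE : IsZF E) (J : M) : ∃ X, IsCube E X J := by
  obtain ⟨t, ht⟩ := hE.exists_two
  obtain ⟨K, hK, -⟩ := hE.exists_rel J t (fun x _ => x = x) (by apply D2.mk; (repeat (first | assumption | apply d_dj | apply defT_fn | apply d_fin | apply d_sz | apply d_isNat | apply defP_lt | apply defP_le | apply defT_mul | apply defT_add | apply (d_agree _ _).app | apply d_isOne.app | apply d_isZero.app | apply d_pairIn.app | apply d_isPair.app | exact Atom.var 0 fun _ => rfl | exact Atom.var 1 fun _ => rfl | exact Atom.var 2 fun _ => rfl | exact Atom.var 3 fun _ => rfl | exact Atom.var 4 fun _ => rfl | exact Atom.var 5 fun _ => rfl | exact Atom.var 6 fun _ => rfl | exact Atom.var 7 fun _ => rfl | exact Atom.var 8 fun _ => rfl | exact Atom.var 9 fun _ => rfl | exact Atom.const _ | apply Atom.defT | apply DefT.eq | apply DefT.mem | apply DefP.exEl | apply DefP.allEl | apply DefP.exM | apply DefP.allM | apply DefP.not | apply DefP.imp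 | apply DefP.iff | apply DefP.or | apply DefP.and)))
  obtain ⟨P, hP⟩ := hE.power K
  obtain ⟨X, hX⟩ := hE.sep P (fun x => IsFunction E x J t) (by
    unfold D1 IsFunction ExistsUnique
    (repeat (first | assumption | apply d_dj | apply defT_fn | apply d_fin | apply d_sz | apply d_isNat | apply defP_lt | apply defP_le | apply defT_mul | apply defT_add | apply (d_agree _ _).app | apply d_isOne.app | apply d_isZero.app | apply d_pairIn.app | apply d_isPair.app | exact Atom.var 0 fun _ => rfl | exact Atom.var 1 fun _ => rfl | exact Atom.var 2 fun _ => rfl | exact Atom.var 3 fun _ => rfl | exact Atom.var 4 fun _ => rfl | exact Atom.var 5 fun _ => rfl | exact Atom.var 6 fun _ => rfl | exact Atom.var 7 fun _ => rfl | exact Atom.var 8 fun _ => rfl | exact Atom.var 9 fun _ => rfl | exact Atom.const _ | apply Atom.defT | apply DefT.eq | apply DefT.mem | apply DefP.exEl | apply DefP.allEl | apply DefP.exM | apply DefP.allM | apply DefP.not | apply DefP.imp | apply DefP.iff | apply DefP.or | apply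 DefP.and)))
  refine ⟨X, fun x => ?_⟩
  rw [hX]
  constructor
  · rintro ⟨-, h⟩
    exact ⟨t, ht, h⟩
  · rintro ⟨t', ht', h⟩
    obtain rfl : t' = t := hE.extensionality _ _ fun y => by rw [ht' y, ht y]
    refine ⟨(hP x).2 fun p hp => ?_, h⟩
    obtain ⟨y, z, hy, hz, hp⟩ := h.1 p hp
    exact (hK p).2 ⟨y, z, hy, hz, rfl, hp⟩

theorem exists_productTopology (hE : IsZF E) (X J : M) : ∃ T, IsProductTopology E T X J := by
  obtain ⟨P, hP⟩ := hE.power X
  obtain ⟨T, hT⟩ := hE.sep P
    (fun O => ∀ T', IsTopology E T' X → HasSubbase E T' X J → E O T') (by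
    unfold D1 IsTopology HasSubbase
    (repeat (first | assumption | apply d_dj | apply defT_fn | apply d_fin | apply d_sz | apply d_isNat | apply defP_lt | apply defP_le | apply defT_mul | apply defT_add | apply (d_agree _ _).app | apply d_isOne.app | apply d_isZero.app | apply d_pairIn.app | apply d_isPair.app | exact Atom.var 0 fun _ => rfl | exact Atom.var 1 fun _ => rfl | exact Atom.var 2 fun _ => rfl | exact Atom.var 3 fun _ => rfl | exact Atom.var 4 fun _ => rfl | exact Atom.var 5 fun _ => rfl | exact Atom.var 6 fun _ => rfl | exact Atom.var 7 fun _ => rfl | exact Atom.var 8 fun _ => rfl | exact Atom.var 9 fun _ => rfl | exact Atom.const _ | apply Atom.defT | apply DefT.eq | apply DefT.mem | apply DefP.exEl | apply DefP.allEl | apply DefP.exM | apply DefP.allM | apply DefP.not | apply DefP.imp | apply DefP.iff | apply DefP.or | apply DefP.and)))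
  refine ⟨T, ⟨?_, ?_, ?_, ?_⟩, ?_, ?_⟩
  · exact fun O hO => (hP O).1 ((hT O).1 hO).1
  · exact (hT X).2 ⟨(hP X).2 fun _ h => h, fun T' h _ => h.2.1⟩
  · intro O O' W hO hO' hW
    refine (hT W).2 ⟨(hP W).2 fun x hx => ?_, fun T' h h' => ?_⟩
    · exact (hP O).1 ((hT O).1 hO).1 x ((hW x).1 hx).1
    · exact h.2.2.1 O O' W (((hT O).1 hO).2 T' h h') (((hT O').1 hO').2 T' h h') hW
  · intro U W hU hW
    refine (hT W).2 ⟨(hP W).2 fun x hx => ?_, fun T' h h' => ?_⟩
    · obtain ⟨O, hO, hx⟩ := (hW x).1 hx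
      exact (hP O).1 ((hT O).1 (hU O hO)).1 x hx
    · exact h.2.2.2 U W (fun O hO => ((hT O).1 (hU O hO)).2 T' h h') hW
  · intro j i W hj hi hW
    exact (hT W).2 ⟨(hP W).2 fun x hx => ((hW x).1 hx).1, fun T' _ h' => h' j i W hj hi hW⟩
  · exact fun T' h h' O hO => ((hT O).1 hO).2 T' h h'

end Pool.Agent.SZD
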