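import Pool.Agent.Helper70_SZD.Statement

/-!
# Basic set theory in a model of ZF
-/

namespace Pool.Agent.SZD

universe u v

variable {M : Type u} {E : M → M → Prop}

/-! ### Comprehension -/

/-- Separation for a definable predicate on the elements of a set. -/
theorem IsZF.sepEl (hE : IsZF E) (a : M) (P : El E a → Prop)
    (hP : DefP E (fun (x : El E a) (_ : ℕ) => x.1) P) :
    ∃ b, ∀ x, E x b ↔ ∃ h : E x a, P ⟨x, h⟩ := by
  obtain ⟨φ, s, hs⟩ := hP
  obtain ⟨b, hb⟩ := hE.separation (φ.rename fun n => match s n with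
    | .inl _ => 0
    | .inr _ => n + 1) (fun n => match s n with
    | .inl _ => a
    | .inr d => d) a
  refine ⟨b, fun x => ?_⟩
  rw [hb x, sat_rename]
  constructor
  · rintro ⟨h, h2⟩
    refine ⟨h, (hs ⟨x, h⟩).2 ?_⟩
    refine Eq.mp ?_ h2
    congr 1
    funext n
    rcases hn : s n with i | d
    · simp only [scons, ev]
    · simp only [hn, scons, ev]
  · rintro ⟨h, h2⟩
    refine ⟨h, ?_⟩
    refine Eq.mp ?_ ((hs ⟨x, h⟩).1 h2)
    congr 1
    funext n
    rcases hn : s n with i | d
    · simp only [scons, ev]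
    · simp only [hn, scons, ev]

theorem IsZF.sep (hE : IsZF E) (a : M) (P : M → Prop) (hP : D1 E P) :
    ∃ b, ∀ x, E x b ↔ E x a ∧ P x := by
  obtain ⟨φ, s, hs⟩ := hP
  obtain ⟨b, hb⟩ := hE.sepEl a (fun x => P x.1) ⟨φ, s, fun g => hs g.1⟩
  exact ⟨b, fun x => by rw [hb x]; simp⟩

/-! ### Definability of basic relations -/

theorem D2.mk {R : M → M → Prop} (h : DefP E (fun (p : M × M) => scons p.1 (fun _ => p.2))
    (fun p => R p.1 p.2)) : D2 E R := h

theorem D3.mk {R : M → M → M → Prop} (h : DefP E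
    (fun (p : M × M × M) => scons p.1 (scons p.2.1 (fun _ => p.2.2)))
    (fun p => R p.1 p.2.1 p.2.2)) : D3 E R := h

theorem d_isPair : D3 E (IsPair E) := by
  unfold IsPair
  apply D3.mk
  (repeat (first | assumption | exact Atom.var 0 fun _ => rfl | exact Atom.var 1 fun _ => rfl | exact Atom.var 2 fun _ => rfl | exact Atom.var 3 fun _ => rfl | exact Atom.var 4 fun _ => rfl | exact Atom.var 5 fun _ => rfl | exact Atom.var 6 fun _ => rfl | exact Atom.var 7 fun _ => rfl | exact Atom.var 8 fun _ => rfl | exact Atom.var 9 fun _ => rfl | exact Atom.const _ | apply Atom.defT | apply DefT.eq | apply DefT.mem | apply DefP.exEl | apply DefP.allEl | apply DefP.exM | apply DefP.allM | apply DefP.not | apply DefP.imp | apply DefP.iff | apply DefP.or | apply DefP.and))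

theorem d_pairIn : D3 E (PairIn E) := by
  unfold PairIn
  apply D3.mk
  (repeat (first | assumption | apply d_isPair.app | exact Atom.var 0 fun _ => rfl | exact Atom.var 1 fun _ => rfl | exact Atom.var 2 fun _ => rfl | exact Atom.var 3 fun _ => rfl | exact Atom.var 4 fun _ => rfl | exact Atom.var 5 fun _ => rfl | exact Atom.var 6 fun _ => rfl | exact Atom.var 7 fun _ => rfl | exact Atom.var 8 fun _ => rfl | exact Atom.var 9 fun _ => rfl | exact Atom.const _ | apply Atom.defT | apply DefT.eq | apply DefT.mem | apply DefP.exEl | apply DefP.allEl | apply DefP.exM | apply DefP.allM | apply DefP.not | apply DefP.imp | apply DefP.iff | apply DefP.or | apply DefP.and))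

/-! ### Pairs -/

theorem isPair_inj_left {p x y x' y' : M} (hE : IsZF E) (h : IsPair E p x y)
    (h' : IsPair E p x' y') : x = x' ∧ y = y' := by
  obtain ⟨s, hs⟩ := hE.pairing x x
  have hs' : ∀ w, E w s ↔ w = x := fun w => by rw [hs]; simp
  obtain ⟨t, ht⟩ := hE.pairing x y
  obtain ⟨s', hs1⟩ := hE.pairing x' x'
  have hs1' : ∀ w, E w s' ↔ w = x' := fun w => by rw [hs1]; simp
  obtain ⟨t', ht'⟩ := hE.pairing x' y'
  have a1 : E s p := (h s).2 (Or.inl hs')
  have a2 : E t p := (h t).2 (Or.inr ht)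
  have b1 : E s' p := (h' s').2 (Or.inl hs1')
  have b2 : E t' p := (h' t').2 (Or.inr ht')
  have hxx : x = x' := by
    rcases (h' s).1 a1 with e | e
    · exact (e x).1 ((hs' x).2 rfl)
    · exact ((hs' x').1 ((e x').2 (Or.inl rfl))).symm
  subst hxx
  refine ⟨rfl, ?_⟩
  by_cases hxy : x = y
  · subst hxy
    rcases (h t').1 b2 with e | e
    · exact ((e y').1 ((ht' y').2 (Or.inr rfl))).symm
    · have := (e y').1 ((ht' y').2 (Or.inr rfl))
      simp only [or_self] at this
      exact this.symm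
  · rcases (h' t).1 a2 with e | e
    · exact absurd ((e y).1 ((ht y).2 (Or.inr rfl))).symm hxy
    · rcases (e y).1 ((ht y).2 (Or.inr rfl)) with e' | e'
      · exact absurd e'.symm hxy
      · exact e'

theorem IsZF.exists_pair (hE : IsZF E) (x y : M) : ∃ p, IsPair E p x y := by
  obtain ⟨s, hs⟩ := hE.pairing x x
  obtain ⟨t, ht⟩ := hE.pairing x y
  obtain ⟨p, hp⟩ := hE.pairing s t
  refine ⟨p, fun z => ?_⟩
  rw [hp z]
  refine or_congr ⟨?_, ?_⟩ ⟨?_, ?_⟩
  · rintro rfl w
    rw [hs]; simp
  · intro h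
    refine hE.extensionality _ _ fun w => ?_
    rw [h, hs]; simp
  · rintro rfl
    exact ht
  · intro h
    refine hE.extensionality _ _ fun w => ?_
    rw [h, ht]

theorem IsZF.pair_unique (hE : IsZF E) {p q x y : M} (hp : IsPair E p x y)
    (hq : IsPair E q x y) : p = q :=
  hE.extensionality _ _ fun z => by rw [hp z, hq z]

/-- The union of two sets. -/
theorem IsZF.exists_union (hE : IsZF E) (a b : M) : ∃ c, ∀ x, E x c ↔ E x a ∨ E x b := by
  obtain ⟨d, hd⟩ := hE.pairing a b
  obtain ⟨c, hc⟩ := hE.union d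
  refine ⟨c, fun x => ?_⟩
  rw [hc x]
  constructor
  · rintro ⟨y, hy, hx⟩
    rcases (hd y).1 hy with rfl | rfl
    · exact Or.inl hx
    · exact Or.inr hx
  · rintro (h | h)
    · exact ⟨a, (hd a).2 (Or.inl rfl), h⟩
    · exact ⟨b, (hd b).2 (Or.inr rfl), h⟩

/-- The set of the pairs `(x, y)` in `a × b` with `R x y`. -/
theorem IsZF.exists_rel (hE : IsZF E) (a b : M) (R : M → M → Prop) (hR : D2 E R) :
    ∃ r, (∀ p, E p r ↔ ∃ x y, E x a ∧ E y b ∧ R x y ∧ IsPair E p x y) ∧
      ∀ x y, PairIn E x y r ↔ E x a ∧ E y b ∧ R x y := by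
  obtain ⟨c, hc⟩ := hE.exists_union a b
  obtain ⟨d, hd⟩ := hE.power c
  obtain ⟨e, he⟩ := hE.power d
  obtain ⟨r, hr⟩ := hE.sep e (fun p => ∃ x y, E x a ∧ E y b ∧ R x y ∧ IsPair E p x y) (by
    unfold D1
    (repeat (first | assumption | apply d_pairIn.app | apply d_isPair.app | exact Atom.var 0 fun _ => rfl | exact Atom.var 1 fun _ => rfl | exact Atom.var 2 fun _ => rfl | exact Atom.var 3 fun _ => rfl | exact Atom.var 4 fun _ => rfl | exact Atom.var 5 fun _ => rfl | exact Atom.var 6 fun _ => rfl | exact Atom.var 7 fun _ => rfl | exact Atom.var 8 fun _ => rfl | exact Atom.var 9 fun _ => rfl | exact Atom.const _ | apply Atom.defT | apply DefT.eq | apply DefT.mem | apply DefP.exEl | apply DefP.allEl | apply DefP.exM | apply DefP.allM | apply DefP.not | apply DefP.imp | apply DefP.iff | apply DefP.or | apply DefP.and))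
    · apply hR.app <;> (repeat (first | assumption | exact Atom.var 0 fun _ => rfl | exact Atom.var 1 fun _ => rfl | exact Atom.var 2 fun _ => rfl | exact Atom.var 3 fun _ => rfl | exact Atom.var 4 fun _ => rfl | exact Atom.var 5 fun _ => rfl | exact Atom.var 6 fun _ => rfl | exact Atom.var 7 fun _ => rfl | exact Atom.var 8 fun _ => rfl | exact Atom.var 9 fun _ => rfl | exact Atom.const _ | apply Atom.defT))
    · (repeat (first | assumption | apply d_pairIn.app | apply d_isPair.app | exact Atom.var 0 fun _ => rfl | exact Atom.var 1 fun _ => rfl | exact Atom.var 2 fun _ => rfl | exact Atom.var 3 fun _ => rfl | exact Atom.var 4 fun _ => rfl | exact Atom.var 5 fun _ => rfl | exact Atom.var 6 fun _ => rfl | exact Atom.var 7 fun _ => rfl | exact Atom.var 8 fun _ => rfl | exact Atom.var 9 fun _ => rfl | exact Atom.const _ | apply Atom.defT | apply DefT.eq | apply DefT.mem | apply DefP.exEl | apply DefP.allEl | apply DefP.exM | apply DefP.allM | apply DefP.not | apply DefP.imp | apply DefP.iff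 | apply DefP.or | apply DefP.and)))
  have key : ∀ p, E p r ↔ ∃ x y, E x a ∧ E y b ∧ R x y ∧ IsPair E p x y := by
    intro p
    rw [hr p]
    constructor
    · exact fun h => h.2
    · intro h
      refine ⟨?_, h⟩
      obtain ⟨x, y, hx, hy, -, hp⟩ := h
      rw [he]
      intro z hz
      rw [hd]
      intro w hw
      rw [hc]
      rcases (hp z).1 hz with e | e
      · rw [(e w).1 hw]; exact Or.inl hx
      · rcases (e w).1 hw with rfl | rfl
        · exact Or.inl hx
        · exact Or.inr hy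
  refine ⟨r, key, fun x y => ?_⟩
  constructor
  · rintro ⟨p, hp, hpr⟩
    obtain ⟨x', y', hx, hy, hR, hp'⟩ := (key p).1 hpr
    obtain ⟨rfl, rfl⟩ := isPair_inj_left hE hp hp'
    exact ⟨hx, hy, hR⟩
  · rintro ⟨hx, hy, hR⟩
    obtain ⟨p, hp⟩ := hE.exists_pair x y
    exact ⟨p, hp, (key p).2 ⟨x, y, hx, hy, hR, hp⟩⟩

/-! ### Numerals -/

theorem d_isZero : D1 E (IsZero E) := by
  unfold IsZero D1
  (repeat (first | assumption | apply d_pairIn.app | apply d_isPair.app | exact Atom.var 0 fun _ => rfl | exact Atom.var 1 fun _ => rfl | exact Atom.var 2 fun _ => rfl | exact Atom.var 3 fun _ => rfl | exact Atom.var 4 fun _ => rfl | exact Atom.var 5 fun _ => rfl | exact Atom.var 6 fun _ => rfl | exact Atom.var 7 fun _ => rfl | exact Atom.var 8 fun _ => rfl | exact Atom.var 9 fun _ => rfl | exact Atom.const _ | apply Atom.defT | apply DefT.eq | apply DefT.mem | apply DefP.exEl | apply DefP.allEl | apply DefP.exM | apply DefP.allM | apply DefP.not | apply DefP.imp | apply DefP.iff | apply DefP.or |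 apply DefP.and))

theorem d_isOne : D1 E (IsOne E) := by
  unfold IsOne D1
  (repeat (first | assumption | apply d_isZero.app | apply d_pairIn.app | apply d_isPair.app | exact Atom.var 0 fun _ => rfl | exact Atom.var 1 fun _ => rfl | exact Atom.var 2 fun _ => rfl | exact Atom.var 3 fun _ => rfl | exact Atom.var 4 fun _ => rfl | exact Atom.var 5 fun _ => rfl | exact Atom.var 6 fun _ => rfl | exact Atom.var 7 fun _ => rfl | exact Atom.var 8 fun _ => rfl | exact Atom.var 9 fun _ => rfl | exact Atom.const _ | apply Atom.defT | apply DefT.eq | apply DefT.mem | apply DefP.exEl | apply DefP.allEl | apply DefP.exM | apply DefP.allM | apply DefP.not | apply DefP.imp | apply DefP.iff | apply DefP.or | apply DefP.and))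

theorem IsZF.exists_zero (hE : IsZF E) : ∃ z, IsZero E z := by
  obtain ⟨a, ⟨x, -, hx⟩, -⟩ := hE.infinity
  exact ⟨x, hx⟩

theorem IsZF.exists_one (hE : IsZF E) : ∃ z, IsOne E z := by
  obtain ⟨o, ho⟩ := hE.exists_zero
  obtain ⟨z, hz⟩ := hE.pairing o o
  refine ⟨z, fun x => ?_⟩
  rw [hz]
  constructor
  · rintro (rfl | rfl) <;> exact ho
  · intro h
    exact Or.inl (hE.extensionality _ _ fun w => by simp [h w, ho w])

theorem IsZF.zero_unique (hE : IsZF E) {z z' : M} (h : IsZero E z) (h' : IsZero E z') : z = z' :=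
  hE.extensionality _ _ fun w => by simp [h w, h' w]

theorem IsZF.one_unique (hE : IsZF E) {z z' : M} (h : IsOne E z) (h' : IsOne E z') : z = z' :=
  hE.extensionality _ _ fun w => by rw [h w, h' w]

theorem IsZF.zero_ne_one (hE : IsZF E) {z z' : M} (h : IsZero E z) (h' : IsOne E z') :
    z ≠ z' := by
  rintro rfl
  obtain ⟨o, ho⟩ := hE.exists_zero
  exact h o ((h' o).2 ho)

theorem IsZF.exists_two (hE : IsZF E) : ∃ t, IsTwo E t := by
  obtain ⟨o, ho⟩ := hE.exists_zero
  obtain ⟨i, hi⟩ := hE.exists_one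
  obtain ⟨t, ht⟩ := hE.pairing o i
  refine ⟨t, fun x => ?_⟩
  rw [ht]
  constructor
  · rintro (rfl | rfl)
    · exact Or.inl ho
    · exact Or.inr hi
  · rintro (h | h)
    · exact Or.inl (hE.zero_unique h ho)
    · exact Or.inr (hE.one_unique h hi)

end Pool.Agent.SZD
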