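import Pool.Agent.Helper70_SZD.ZF

/-!
# Cantor cubes and strong zero-dimensionality inside a model of ZF

All notions below are those of the structure `(M, E)`: sets, functions, topologies and real numbers
are elements of `M`, and `E x a` means that `x` is an element of `a`.
-/

namespace Pool.Agent.SZD

universe u

variable {M : Type u} (E : M → M → Prop)

/-- `p` is the Kuratowski pair `{{x}, {x, y}}`. -/
def IsPair (p x y : M) : Prop :=
  ∀ z, E z p ↔ (∀ w, E w z ↔ w = x) ∨ (∀ w, E w z ↔ w = x ∨ w = y)

/-- The ordered pair of `x` and `y` is an element of `r`. -/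
def PairIn (x y r : M) : Prop := ∃ p, IsPair E p x y ∧ E p r

/-- `h` is a function from `a` to `b`. -/
def IsFunction (h a b : M) : Prop :=
  (∀ p, E p h → ∃ x y, E x a ∧ E y b ∧ IsPair E p x y) ∧ ∀ x, E x a → ∃! y, PairIn E x y h

/-- `z` is the number `0 = ∅`. -/
def IsZero (z : M) : Prop := ∀ x, ¬ E x z

/-- `z` is the number `1 = {0}`. -/
def IsOne (z : M) : Prop := ∀ x, E x z ↔ IsZero E x

/-- `t` is the number `2 = {0, 1}`. -/
def IsTwo (t : M) : Prop := ∀ x, E x t ↔ IsZero E x ∨ IsOne E x

/-- `X` is the set `2 ^ J` of all functions from `J` to `2`. -/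
def IsCube (X J : M) : Prop := ∀ x, E x X ↔ ∃ t, IsTwo E t ∧ IsFunction E x J t

/-- `T` is a topology on the set `X` (the empty set is the union of the empty family). -/
def IsTopology (T X : M) : Prop :=
  (∀ O, E O T → ∀ x, E x O → E x X) ∧ E X T ∧
  (∀ O O' W, E O T → E O' T → (∀ x, E x W ↔ E x O ∧ E x O') → E W T) ∧
  (∀ U W, (∀ O, E O U → E O T) → (∀ x, E x W ↔ ∃ O, E O U ∧ E x O) → E W T)

/-- The family `T` contains all sets `{x ∈ X : x(j) = i}`, for `j ∈ J` and `i ∈ {0, 1}`. -/
def HasSubbase (T X J : M) : Prop :=
  ∀ j i W, E j J → (IsZero E i ∨ IsOne E i) → (∀ x, E x W ↔ E x X ∧ PairIn E j i x) → E W T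

/-- `T` is the product topology on `X = 2 ^ J`: the smallest topology that contains the sets
`{x ∈ X : x(j) = i}`. -/
def IsProductTopology (T X J : M) : Prop :=
  IsTopology E T X ∧ HasSubbase E T X J ∧
    ∀ T', IsTopology E T' X → HasSubbase E T' X J → ∀ O, E O T → E O T'

/-- A complete ordered field of the model, i.e. the field of real numbers of the model: a set
`carrier` of the model with a structure of ordered field on its elements, such that the addition,
the multiplication and the order are elements of the model, and such that every subset in the model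
that is nonempty and bounded above has a supremum. -/
structure Reals where
  /-- the underlying set -/
  carrier : M
  /-- the field operations -/
  [field : Field (El E carrier)]
  /-- the order -/
  [order : LinearOrder (El E carrier)]
  /-- the operations are compatible with the order -/
  [ordered : IsStrictOrderedRing (El E carrier)]
  /-- the graph of the addition -/
  addGraph : M
  /-- the graph of the multiplication -/
  mulGraph : M
  /-- the graph of the order -/
  leGraph : M
  add_iff : ∀ x y z : El E carrier,
    x + y = z ↔ ∃ q, IsPair E q x.1 y.1 ∧ PairIn E q z.1 addGraph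
  mul_iff : ∀ x y z : El E carrier,
    x * y = z ↔ ∃ q, IsPair E q x.1 y.1 ∧ PairIn E q z.1 mulGraph
  le_iff : ∀ x y : El E carrier, x ≤ y ↔ PairIn E x.1 y.1 leGraph
  complete : ∀ S : M, (∀ x, E x S → E x carrier) → (∃ x, E x S) →
    (∃ b : El E carrier, ∀ x : El E carrier, E x.1 S → x ≤ b) →
      ∃ b : El E carrier, (∀ x : El E carrier, E x.1 S → x ≤ b) ∧
        ∀ b' : El E carrier, (∀ x : El E carrier, E x.1 S → x ≤ b') → b ≤ b'

attribute [instance] Reals.field Reals.order Reals.ordered

/-- `A` and `B` are completely separated in the space `(X, T)`: in the model there is a continuous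
function `f : X → [0, 1]` that is `0` on `A` and `1` on `B`. -/
def CompletelySeparated (T X A B : M) : Prop :=
  ∃ (R : Reals E) (f : M), IsFunction E f X R.carrier ∧
    (∀ x, ∀ r : El E R.carrier, PairIn E x r.1 f → 0 ≤ r ∧ r ≤ 1) ∧
    (∀ x, ∀ r a b : El E R.carrier, PairIn E x r.1 f → a < r → r < b →
      ∃ O, E O T ∧ E x O ∧ ∀ y, ∀ s : El E R.carrier, E y O → PairIn E y s.1 f → a < s ∧ s < b) ∧
    (∀ x, E x A → PairIn E x (0 : El E R.carrier).1 f) ∧
    (∀ x, E x B → PairIn E x (1 : El E R.carrier).1 f)

/-- The space `(X, T)` is strongly zero-dimensional: any two completely separated subsets `A`, `B`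
of `X` are separated by a clopen set `C ⊇ A` (with complement `C' ⊇ B`). -/
def StronglyZeroDimensional (T X : M) : Prop :=
  ∀ A B, (∀ x, E x A → E x X) → (∀ x, E x B → E x X) → CompletelySeparated E T X A B →
    ∃ C C', E C T ∧ E C' T ∧ (∀ x, E x C' ↔ E x X ∧ ¬ E x C) ∧
      (∀ x, E x A → E x C) ∧ ∀ x, E x B → ¬ E x C

end Pool.Agent.SZD
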