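import Pool.Agent.Helper70_SZD.Fin

/-!
# The product topology on the cube, and the finiteness lemma
-/

namespace Pool.Agent.SZD

universe u v w

variable {M : Type u} {E : M → M → Prop}

section Topology

variable (hE : IsZF E) {J X T o : M} (ho : IsOne E o) (hX : IsCube E X J)
  (hT : IsProductTopology E T X J) (R : Reals E)

include hE ho hX hT

/-- Open sets are unions of cylinders given by finite sets. -/
theorem exists_cylinder {O : M} (hO : E O T) (x : El E X) (hx : E x.1 O) :
    ∃ G, Fin R J G ∧ ∀ y : El E X, Agree E J o G x.1 y.1 → E y.1 O := by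
  obtain ⟨P, hP⟩ := hE.power X
  obtain ⟨T', hT'⟩ := hE.sep P (fun O => ∀ x : El E X, E x.1 O →
    ∃ G, Fin R J G ∧ ∀ y : El E X, Agree E J o G x.1 y.1 → E y.1 O) (by unfold D1; (repeat (first | assumption | apply d_fin | apply d_sz | apply d_isNat | apply defP_lt | apply defP_le | apply defT_mul | apply defT_add | apply (d_agree _ _).app | apply d_isOne.app | apply d_isZero.app | apply d_pairIn.app | apply d_isPair.app | exact Atom.var 0 fun _ => rfl | exact Atom.var 1 fun _ => rfl | exact Atom.var 2 fun _ => rfl | exact Atom.var 3 fun _ => rfl | exact Atom.var 4 fun _ => rfl | exact Atom.var 5 fun _ => rfl | exact Atom.var 6 fun _ => rfl | exact Atom.var 7 fun _ => rfl | exact Atom.var 8 fun _ => rfl | exact Atom.var 9 fun _ => rfl | exact Atom.const _ | apply Atom.defT | apply DefT.eq | apply DefT.mem | apply DefP.exEl | apply DefP.allEl | apply DefP.exM | apply DefP.allM | apply DefP.not | apply DefP.imp | apply DefP.iff | apply DefP.or | apply DefP.and)))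
  have key := hT.2.2 T' ?_ ?_ O hO
  · exact ((hT' O).1 key).2 x hx
  · refine ⟨?_, ?_, ?_, ?_⟩
    · intro O hO x hx
      exact (hP O).1 ((hT' O).1 hO).1 x hx
    · refine (hT' X).2 ⟨(hP X).2 fun _ h => h, fun x _ => ?_⟩
      obtain ⟨e, he⟩ := hE.exists_zero
      exact ⟨e, fin_empty he, fun y _ => y.2⟩
    · intro O O' W hO hO' hW
      obtain ⟨h1, h2⟩ := (hT' O).1 hO
      obtain ⟨h1', h2'⟩ := (hT' O').1 hO'
      refine (hT' W).2 ⟨(hP W).2 fun x hx => (hP O).1 h1 x ((hW x).1 hx).1, fun x hx => ?_⟩
      obtain ⟨G, hG, hG'⟩ := h2 x ((hW _).1 hx).1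
      obtain ⟨H, hH, hH'⟩ := h2' x ((hW _).1 hx).2
      obtain ⟨K, hK⟩ := hE.exists_union G H
      refine ⟨K, fin_union hE hG hH K hK, fun y hy => (hW _).2 ⟨hG' y ?_, hH' y ?_⟩⟩
      · exact hy.mono fun j hj => (hK j).2 (Or.inl hj)
      · exact hy.mono fun j hj => (hK j).2 (Or.inr hj)
    · intro U W hU hW
      refine (hT' W).2 ⟨(hP W).2 fun x hx => ?_, fun x hx => ?_⟩
      · obtain ⟨O, hO, hx⟩ := (hW x).1 hx
        exact (hP O).1 ((hT' O).1 (hU O hO)).1 x hx
      · obtain ⟨O, hO, hx⟩ := (hW _).1 hx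
        obtain ⟨G, hG, hG'⟩ := ((hT' O).1 (hU O hO)).2 x hx
        exact ⟨G, hG, fun y hy => (hW _).2 ⟨O, hO, hG' y hy⟩⟩
  · intro j i W hj hi hW
    refine (hT' W).2 ⟨(hP W).2 fun x hx => ((hW x).1 hx).1, fun x hx => ?_⟩
    obtain ⟨G, hG⟩ := hE.pairing j j
    obtain ⟨e, he⟩ := hE.exists_zero
    refine ⟨G, fin_insert ⟨j, hj⟩ (fin_empty he) (fun y => by simp [hG y, he y]), fun y hy => ?_⟩
    have h1 := hy j hj ((hG j).2 (Or.inl rfl))
    have h2 := ((hW _).1 hx).2
    refine (hW _).2 ⟨y.2, ?_⟩
    rcases hi with hi | hi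
    · rw [cube_one_or_zero hE ho hX y.2 hj hi, ← h1,
        ← cube_one_or_zero hE ho hX x.2 hj hi]
      exact h2
    · rw [hE.one_unique hi ho] at h2 ⊢
      exact h1.1 h2

/-- Cylinders given by finite sets are open. -/
theorem cylinder_open {G : M} (hG : Fin R J G) : ∀ x : El E X, ∀ W,
    (∀ y, E y W ↔ E y X ∧ Agree E J o G x.1 y) → E W T := by
  refine fin_ind hE (Ψ := fun G => ∀ x : El E X, ∀ W,
    (∀ y, E y W ↔ E y X ∧ Agree E J o G x.1 y) → E W T) (by unfold D1; (repeat (first | assumption | apply d_fin | apply d_sz | apply d_isNat | apply defP_lt | apply defP_le | apply defT_mul | apply defT_add | apply (d_agree _ _).app | apply d_isOne.app | apply d_isZero.app | apply d_pairIn.app | apply d_isPair.app | exact Atom.var 0 fun _ => rfl | exact Atom.var 1 fun _ => rfl | exact Atom.var 2 fun _ => rfl | exact Atom.var 3 fun _ => rfl | exact Atom.var 4 fun _ => rfl | exact Atom.var 5 fun _ => rfl | exact Atom.var 6 fun _ => rfl | exact Atom.var 7 fun _ => rfl | exact Atom.var 8 fun _ => rfl | exact Atom.var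 9 fun _ => rfl | exact Atom.const _ | apply Atom.defT | apply DefT.eq | apply DefT.mem | apply DefP.exEl | apply DefP.allEl | apply DefP.exM | apply DefP.allM | apply DefP.not | apply DefP.imp | apply DefP.iff | apply DefP.or | apply DefP.and))) ?_ ?_ G hG
  · intro e he x W hW
    obtain rfl : W = X := hE.extensionality _ _ fun y => by
      rw [hW]
      exact ⟨fun h => h.1, fun h => ⟨h, fun j _ hj => absurd hj (he j)⟩⟩
    exact hT.1.2.1
  · intro G G' j hG ih hG' x W hW
    obtain ⟨W₁, hW₁⟩ := hE.sep X (fun y => Agree E J o G x.1 y) (by unfold D1; (repeat (first | assumption | apply d_fin | apply d_sz | apply d_isNat | apply defP_lt | apply defP_le | apply defT_mul | apply defT_add | apply (d_agree _ _).app | apply d_isOne.app | apply d_isZero.app | apply d_pairIn.app | apply d_isPair.app | exact Atom.var 0 fun _ => rfl | exact Atom.var 1 fun _ => rfl | exact Atom.var 2 fun _ => rfl | exact Atom.var 3 fun _ => rfl | exact Atom.var 4 fun _ => rfl | exact Atom.var 5 fun _ => rfl | exact Atom.var 6 fun _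 => rfl | exact Atom.var 7 fun _ => rfl | exact Atom.var 8 fun _ => rfl | exact Atom.var 9 fun _ => rfl | exact Atom.const _ | apply Atom.defT | apply DefT.eq | apply DefT.mem | apply DefP.exEl | apply DefP.allEl | apply DefP.exM | apply DefP.allM | apply DefP.not | apply DefP.imp | apply DefP.iff | apply DefP.or | apply DefP.and)))
    have h1 := ih x W₁ hW₁
    obtain ⟨i, hi, hi', -⟩ := cube_val hE hX x.2 j.2
    obtain ⟨W₂, hW₂⟩ := hE.sep X (fun y => PairIn E j.1 i y) (by unfold D1; (repeat (first | assumption | apply d_fin | apply d_sz | apply d_isNat | apply defP_lt | apply defP_le | apply defT_mul | apply defT_add | apply (d_agree _ _).app | apply d_isOne.app | apply d_isZero.app | apply d_pairIn.app | apply d_isPair.app | exact Atom.var 0 fun _ => rfl | exact Atom.var 1 fun _ => rfl | exact Atom.var 2 fun _ => rfl | exact Atom.var 3 fun _ => rfl | exact Atom.var 4 fun _ => rfl | exact Atom.var 5 fun _ => rfl | exact Atom.var 6 fun _ => rfl | exact Atom.var 7 fun _ => rfl | exact Atom.var 8 fun _ => rfl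 | exact Atom.var 9 fun _ => rfl | exact Atom.const _ | apply Atom.defT | apply DefT.eq | apply DefT.mem | apply DefP.exEl | apply DefP.allEl | apply DefP.exM | apply DefP.allM | apply DefP.not | apply DefP.imp | apply DefP.iff | apply DefP.or | apply DefP.and)))
    have h2 := hT.2.1 j.1 i W₂ j.2 hi' hW₂
    refine hT.1.2.2.1 W₁ W₂ W h1 h2 fun y => ?_
    rw [hW, hW₁, hW₂]
    have h3 : E y X → (PairIn E j.1 i y ↔ (PairIn E j.1 o x.1 ↔ PairIn E j.1 o y)) := by
      intro hy
      rcases hi' with hi' | hi'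
      · have := (cube_one_or_zero hE ho hX x.2 j.2 hi').1 hi
        rw [cube_one_or_zero hE ho hX hy j.2 hi']
        tauto
      · have e := hE.one_unique hi' ho
        subst e
        tauto
    constructor
    · rintro ⟨hy, h⟩
      refine ⟨⟨hy, h.mono fun k hk => (hG' k).2 (Or.inl hk)⟩, hy, (h3 hy).2 ?_⟩
      exact h j.1 j.2 ((hG' _).2 (Or.inr rfl))
    · rintro ⟨⟨hy, h⟩, -, h'⟩
      refine ⟨hy, fun k hk hkG => ?_⟩
      rcases (hG' k).1 hkG with hkG | rfl
      · exact h k hk hkG
      · exact (h3 hy).1 h'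

/-- A subset of the cube that is a union of cylinders is open. -/
theorem open_of_cylinders {O : M} (hOX : ∀ x, E x O → E x X)
    (h : ∀ x : El E X, E x.1 O → ∃ G, Fin R J G ∧
      ∀ y : El E X, Agree E J o G x.1 y.1 → E y.1 O) : E O T := by
  obtain ⟨U, hU⟩ := hE.sep T (fun W => ∀ y, E y W → E y O) (by unfold D1; (repeat (first | assumption | apply d_fin | apply d_sz | apply d_isNat | apply defP_lt | apply defP_le | apply defT_mul | apply defT_add | apply (d_agree _ _).app | apply d_isOne.app | apply d_isZero.app | apply d_pairIn.app | apply d_isPair.app | exact Atom.var 0 fun _ => rfl | exact Atom.var 1 fun _ => rfl | exact Atom.var 2 fun _ => rfl | exact Atom.var 3 fun _ => rfl | exact Atom.var 4 fun _ => rfl | exact Atom.var 5 fun _ => rfl | exact Atom.var 6 fun _ => rfl | exact Atom.var 7 fun _ => rfl | exact Atom.var 8 fun _ => rfl | exact Atom.var 9 fun _ => rfl | exact Atom.const _ | apply Atom.defT | apply DefT.eq | apply DefT.mem | apply DefP.exEl | apply DefP.allEl | apply DefP.exM | apply DefP.allM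 | apply DefP.not | apply DefP.imp | apply DefP.iff | apply DefP.or | apply DefP.and)))
  refine hT.1.2.2.2 U O (fun W hW => ((hU W).1 hW).1) fun x => ?_
  constructor
  · intro hx
    obtain ⟨G, hG, hG'⟩ := h ⟨x, hOX x hx⟩ hx
    obtain ⟨W, hW⟩ := hE.sep X (fun y => Agree E J o G x y) (by unfold D1; (repeat (first | assumption | apply d_fin | apply d_sz | apply d_isNat | apply defP_lt | apply defP_le | apply defT_mul | apply defT_add | apply (d_agree _ _).app | apply d_isOne.app | apply d_isZero.app | apply d_pairIn.app | apply d_isPair.app | exact Atom.var 0 fun _ => rfl | exact Atom.var 1 fun _ => rfl | exact Atom.var 2 fun _ => rfl | exact Atom.var 3 fun _ => rfl | exact Atom.var 4 fun _ => rfl | exact Atom.var 5 fun _ => rfl | exact Atom.var 6 fun _ => rfl | exact Atom.var 7 fun _ => rfl | exact Atom.var 8 fun _ => rfl | exact Atom.var 9 fun _ => rfl | exact Atom.const _ | apply Atom.defT | apply DefT.eq | apply DefT.mem | apply DefP.exEl | apply DefP.allEl | apply DefP.exM | apply DefP.allM | apply DefP.not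 | apply DefP.imp | apply DefP.iff | apply DefP.or | apply DefP.and)))
    refine ⟨W, (hU W).2 ⟨cylinder_open hE ho hX hT R hG ⟨x, hOX x hx⟩ W hW, fun y hy => ?_⟩,
      (hW x).2 ⟨hOX x hx, Agree.refl⟩⟩
    obtain ⟨h1, h2⟩ := (hW y).1 hy
    exact hG' ⟨y, h1⟩ h2
  · rintro ⟨W, hW, hx⟩
    exact ((hU W).1 hW).2 x hx

end Topology

section Claim

variable (hE : IsZF E) {J X o : M} (ho : IsOne E o) (hX : IsCube E X J) (R : Reals E)

variable (E) in
/-- `z` is the point `y` with the coordinate `j` replaced by that of `w`. -/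
def Upd (J o j w y z : M) : Prop :=
  (∀ i, E i J → ¬ i = j → (PairIn E i o z ↔ PairIn E i o y)) ∧
    (PairIn E j o z ↔ PairIn E j o w)

include hE ho hX

theorem exists_upd (j : El E J) (w y : El E X) : ∃ z : El E X, Upd E J o j.1 w.1 y.1 z.1 := by
  obtain ⟨z, hz⟩ := cube_compr hE ho hX (fun i : El E J =>
    (¬ i.1 = j.1 ∧ PairIn E i.1 o y.1) ∨ (i.1 = j.1 ∧ PairIn E j.1 o w.1)) (by (repeat (first | assumption | apply d_fin | apply d_sz | apply d_isNat | apply defP_lt | apply defP_le | apply defT_mul | apply defT_add | apply (d_agree _ _).app | apply d_isOne.app | apply d_isZero.app | apply d_pairIn.app | apply d_isPair.app | exact Atom.var 0 fun _ => rfl | exact Atom.var 1 fun _ => rfl | exact Atom.var 2 fun _ => rfl | exact Atom.var 3 fun _ => rfl | exact Atom.var 4 fun _ => rfl | exact Atom.var 5 fun _ => rfl | exact Atom.var 6 fun _ => rfl | exact Atom.var 7 fun _ => rfl | exact Atom.var 8 fun _ => rfl | exact Atom.var 9 fun _ => rfl | exact Atom.const _ | apply Atom.defT | apply DefT.eq | apply DefT.mem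 | apply DefP.exEl | apply DefP.allEl | apply DefP.exM | apply DefP.allM | apply DefP.not | apply DefP.imp | apply DefP.iff | apply DefP.or | apply DefP.and)))
  refine ⟨z, fun i hi hij => ?_, ?_⟩
  · have := hz ⟨i, hi⟩
    simp only [hij, not_false_eq_true, true_and, false_and, or_false] at this
    exact this
  · have := hz j
    simp only [not_true_eq_false, false_and, true_and, false_or] at this
    exact this

/-- The finiteness lemma: for every set `U` of points and every natural number `k` there is a finite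
set `F` such that each cylinder of size `k` in `U` meets a cylinder over `F` in `U`. -/
theorem finite_lemma : ∀ k, IsNat R k → ∀ U : M, ∃ F, Fin R J F ∧ ∀ G, Sz R J G k →
    ∀ x : El E X, (∀ z : El E X, Agree E J o G x.1 z.1 → E z.1 U) →
      ∃ y : El E X, Agree E J o G x.1 y.1 ∧
        ∀ z : El E X, Agree E J o F y.1 z.1 → E z.1 U := by
  refine nat_ind R hE (by (repeat (first | assumption | apply d_fin | apply d_sz | apply d_isNat | apply defP_lt | apply defP_le | apply defT_mul | apply defT_add | apply (d_agree _ _).app | apply d_isOne.app | apply d_isZero.app | apply d_pairIn.app | apply d_isPair.app | exact Atom.var 0 fun _ => rfl | exact Atom.var 1 fun _ => rfl | exact Atom.var 2 fun _ => rfl | exact Atom.var 3 fun _ => rfl | exact Atom.var 4 fun _ => rfl | exact Atom.var 5 fun _ => rfl | exact Atom.var 6 fun _ => rfl | exact Atom.var 7 fun _ => rfl | exact Atom.var 8 fun _ => rfl | exact Atom.var 9 fun _ => rfl | exact Atom.const _ | apply Atom.defT | apply DefT.eq | apply DefT.mem | apply DefP.exEl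 | apply DefP.allEl | apply DefP.exM | apply DefP.allM | apply DefP.not | apply DefP.imp | apply DefP.iff | apply DefP.or | apply DefP.and))) ?_ ?_
  · intro U
    obtain ⟨e, he⟩ := hE.exists_zero
    refine ⟨e, fin_empty he, fun G hG x hx => ⟨x, Agree.refl, fun z _ => hx z ?_⟩⟩
    exact fun j _ hj => absurd hj (sz_zero hE hG j)
  · intro k hk ih U
    by_cases hex : ∃ G₀, Sz R J G₀ (k + 1) ∧ ∃ x₀ : El E X,
      ∀ z : El E X, Agree E J o G₀ x₀.1 z.1 → E z.1 U
    swap
    · obtain ⟨e, he⟩ := hE.exists_zero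
      exact ⟨e, fin_empty he, fun G hG x hx => absurd ⟨G, hG, x, hx⟩ hex⟩
    obtain ⟨G₀, hG₀, x₀, hx₀⟩ := hex
    obtain ⟨w, hw⟩ := exists_compl hE ho hX x₀
    obtain ⟨F₁, hF₁, hF₁'⟩ := fin_collect hE (R := R) (J := J) (Q := fun j F =>
      ∀ G, Sz R J G k → ∀ x : El E X,
        (∀ z : El E X, Agree E J o G x.1 z.1 → ∃ z' : El E X, E z'.1 U ∧
          Upd E J o j w.1 z.1 z'.1) →
        ∃ y : El E X, Agree E J o G x.1 y.1 ∧ ∀ z : El E X, Agree E J o F y.1 z.1 →
          ∃ z' : El E X, E z'.1 U ∧ Upd E J o j w.1 z.1 z'.1)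
      (by unfold Upd; apply D2.mk; (repeat (first | assumption | apply d_fin | apply d_sz | apply d_isNat | apply defP_lt | apply defP_le | apply defT_mul | apply defT_add | apply (d_agree _ _).app | apply d_isOne.app | apply d_isZero.app | apply d_pairIn.app | apply d_isPair.app | exact Atom.var 0 fun _ => rfl | exact Atom.var 1 fun _ => rfl | exact Atom.var 2 fun _ => rfl | exact Atom.var 3 fun _ => rfl | exact Atom.var 4 fun _ => rfl | exact Atom.var 5 fun _ => rfl | exact Atom.var 6 fun _ => rfl | exact Atom.var 7 fun _ => rfl | exact Atom.var 8 fun _ => rfl | exact Atom.var 9 fun _ => rfl | exact Atom.const _ | apply Atom.defT | apply DefT.eq | apply DefT.mem | apply DefP.exEl | apply DefP.allEl | apply DefP.exM | apply DefP.allM | apply DefP.not | apply DefP.imp | apply DefP.iff | apply DefP.or | apply DefP.and)))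
      (fun j F F' hFF h G hG x hx => by
        obtain ⟨y, hy, hy'⟩ := h G hG x hx
        exact ⟨y, hy, fun z hz => hy' z (hz.mono hFF)⟩) ⟨_, hG₀⟩ (fun j hj => by
        obtain ⟨V, hV⟩ := hE.sepEl X (fun z => ∃ z' : El E X, E z'.1 U ∧
          Upd E J o j w.1 z.1 z'.1) (by unfold Upd; (repeat (first | assumption | apply d_fin | apply d_sz | apply d_isNat | apply defP_lt | apply defP_le | apply defT_mul | apply defT_add | apply (d_agree _ _).app | apply d_isOne.app | apply d_isZero.app | apply d_pairIn.app | apply d_isPair.app | exact Atom.var 0 fun _ => rfl | exact Atom.var 1 fun _ => rfl | exact Atom.var 2 fun _ => rfl | exact Atom.var 3 fun _ => rfl | exact Atom.var 4 fun _ => rfl | exact Atom.var 5 fun _ => rfl | exact Atom.var 6 fun _ => rfl | exact Atom.var 7 fun _ => rfl | exact Atom.var 8 fun _ => rfl | exact Atom.var 9 fun _ => rfl | exact Atom.const _ | apply Atom.defT | apply DefT.eq | apply DefT.mem | apply DefP.exEl | apply DefP.allEl | apply DefP.exM | apply DefP.allM | apply DefP.not | apply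 DefP.imp | apply DefP.iff | apply DefP.or | apply DefP.and)))
        have hV' : ∀ z : El E X, E z.1 V ↔ ∃ z' : El E X, E z'.1 U ∧
            Upd E J o j w.1 z.1 z'.1 := fun z => by
          rw [hV]
          exact ⟨fun ⟨_, h⟩ => h, fun h => ⟨z.2, h⟩⟩
        obtain ⟨F, hF, hF'⟩ := ih V
        refine ⟨F, hF, fun G hG x hx => ?_⟩
        obtain ⟨y, hy, hy'⟩ := hF' G hG x fun z hz => (hV' z).2 (hx z hz)
        exact ⟨y, hy, fun z hz => (hV' z).1 (hy' z hz)⟩)
    obtain ⟨F, hF⟩ := hE.exists_union G₀ F₁
    refine ⟨F, fin_union hE ⟨_, hG₀⟩ hF₁ F hF, fun G hG x hx => ?_⟩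
    by_cases hcomp : ∀ j : El E J, E j.1 G → E j.1 G₀ →
      (PairIn E j.1 o x.1 ↔ PairIn E j.1 o x₀.1)
    · obtain ⟨y, hy⟩ := exists_mix hE ho hX G₀ x₀ x
      refine ⟨y, fun j hj hjG => ?_, fun z hz => hx₀ z fun j hj hjG => ?_⟩
      · have := hy ⟨j, hj⟩
        have h2 := hcomp ⟨j, hj⟩ hjG
        simp only at this h2
        tauto
      · have := hy ⟨j, hj⟩
        have h2 := hz j hj ((hF j).2 (Or.inl hjG))
        simp only at this h2
        tauto
    · push Not at hcomp
      obtain ⟨j, hjG, hjG₀, hne⟩ := hcomp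
      have hxw : PairIn E j.1 o x.1 ↔ PairIn E j.1 o w.1 := by
        have := hw j
        tauto
      obtain ⟨K, hK⟩ := hE.sep G (fun i => ¬ i = j.1) (by unfold D1; (repeat (first | assumption | apply d_fin | apply d_sz | apply d_isNat | apply defP_lt | apply defP_le | apply defT_mul | apply defT_add | apply (d_agree _ _).app | apply d_isOne.app | apply d_isZero.app | apply d_pairIn.app | apply d_isPair.app | exact Atom.var 0 fun _ => rfl | exact Atom.var 1 fun _ => rfl | exact Atom.var 2 fun _ => rfl | exact Atom.var 3 fun _ => rfl | exact Atom.var 4 fun _ => rfl | exact Atom.var 5 fun _ => rfl | exact Atom.var 6 fun _ => rfl | exact Atom.var 7 fun _ => rfl | exact Atom.var 8 fun _ => rfl | exact Atom.var 9 fun _ => rfl | exact Atom.const _ | apply Atom.defT | apply DefT.eq | apply DefT.mem | apply DefP.exEl | apply DefP.allEl | apply DefP.exM | apply DefP.allM | apply DefP.not | apply DefP.imp | apply DefP.iff | apply DefP.or | apply DefP.and)))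
      obtain ⟨m, hm, hKm⟩ := sz_erase hE hG hjG hK
      obtain rfl : k = m := by linarith
      obtain ⟨y, hy, hy'⟩ := hF₁' j.1 hjG₀ K hKm x fun z hz => by
        obtain ⟨z', hz'⟩ := exists_upd hE ho hX j w z
        refine ⟨z', hx z' fun i hi hiG => ?_, hz'⟩
        by_cases hij : i = j.1
        · rw [hij, hz'.2, hxw]
        · rw [hz'.1 i hi hij]
          exact hz i hi ((hK i).2 ⟨hiG, hij⟩)
      obtain ⟨y', hyy⟩ := exists_upd hE ho hX j w y
      refine ⟨y', fun i hi hiG => ?_, fun z hz => ?_⟩
      · by_cases hij : i = j.1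
        · rw [hij, hyy.2, hxw]
        · rw [hyy.1 i hi hij]
          exact hy i hi ((hK i).2 ⟨hiG, hij⟩)
      · obtain ⟨z₁, hz₁⟩ := exists_upd hE ho hX j y z
        obtain ⟨z₂, hz₂U, hz₂⟩ := hy' z₁ fun i hi hiF => by
          by_cases hij : i = j.1
          · rw [hij, hz₁.2]
          · rw [hz₁.1 i hi hij, ← hz i hi ((hF i).2 (Or.inr hiF)), hyy.1 i hi hij]
        have : z₂.1 = z.1 := by
          refine cube_ext hE ho hX z₂.2 z.2 fun i hi => ?_
          by_cases hij : i = j.1
          · rw [hij, hz₂.2, ← hz j.1 j.2 ((hF _).2 (Or.inl hjG₀)), hyy.2]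
          · rw [hz₂.1 i hi hij, hz₁.1 i hi hij]
        rw [← this]
        exact hz₂U

end Claim

end Pool.Agent.SZD
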