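import Mathlib

/-!
# Models of ZF and definability

First-order formulas of set theory (with de Bruijn indices), satisfaction in a structure `(M, E)`,
and the axioms of Zermelo–Fraenkel set theory without choice.
-/

namespace Pool.Agent.SZD

universe u v

/-- First-order formulas in the language `{∈, =}`; the variables are de Bruijn indices, and `all`
binds the variable `0`. -/
inductive Fml : Type
  | mem (i j : ℕ)
  | eq (i j : ℕ)
  | neg (φ : Fml)
  | and (φ ψ : Fml)
  | all (φ : Fml)

/-- Put `x` in front of the assignment `v`. -/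
def scons {M : Type u} (x : M) (v : ℕ → M) : ℕ → M
  | 0 => x
  | n + 1 => v n

/-- Satisfaction of a formula in the structure `(M, E)` under an assignment. -/
def Sat {M : Type u} (E : M → M → Prop) : Fml → (ℕ → M) → Prop
  | .mem i j, v => E (v i) (v j)
  | .eq i j, v => v i = v j
  | .neg φ, v => ¬ Sat E φ v
  | .and φ ψ, v => Sat E φ v ∧ Sat E ψ v
  | .all φ, v => ∀ x, Sat E φ (scons x v)

/-- `(M, E)` is a model of Zermelo–Fraenkel set theory (without the axiom of choice). -/
structure IsZF {M : Type u} (E : M → M → Prop) : Prop where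
  nonempty : Nonempty M
  extensionality : ∀ a b, (∀ x, E x a ↔ E x b) → a = b
  foundation : ∀ a, (∃ x, E x a) → ∃ x, E x a ∧ ∀ y, E y a → ¬ E y x
  pairing : ∀ a b, ∃ c, ∀ x, E x c ↔ x = a ∨ x = b
  union : ∀ a, ∃ b, ∀ x, E x b ↔ ∃ y, E y a ∧ E x y
  power : ∀ a, ∃ b, ∀ x, E x b ↔ ∀ y, E y x → E y a
  infinity : ∃ a, (∃ x, E x a ∧ ∀ y, ¬ E y x) ∧
    ∀ x, E x a → ∃ y, E y a ∧ ∀ z, E z y ↔ E z x ∨ z = x
  separation : ∀ (φ : Fml) (v : ℕ → M) (a : M),
    ∃ b, ∀ x, E x b ↔ E x a ∧ Sat E φ (scons x v)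
  replacement : ∀ (φ : Fml) (v : ℕ → M) (a : M),
    (∀ x, E x a → ∃! y, Sat E φ (scons x (scons y v))) →
      ∃ b, ∀ y, E y b ↔ ∃ x, E x a ∧ Sat E φ (scons x (scons y v))

/-! ### Renaming of variables -/

/-- The renaming under a binder. -/
def up (ρ : ℕ → ℕ) : ℕ → ℕ
  | 0 => 0
  | n + 1 => ρ n + 1

/-- Renaming of the variables of a formula. -/
def Fml.rename : Fml → (ℕ → ℕ) → Fml
  | .mem i j, ρ => .mem (ρ i) (ρ j)
  | .eq i j, ρ => .eq (ρ i) (ρ j)
  | .neg φ, ρ => .neg (φ.rename ρ)
  | .and φ ψ, ρ => .and (φ.rename ρ) (ψ.rename ρ)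
  | .all φ, ρ => .all (φ.rename (up ρ))

theorem scons_comp_up {M : Type u} (x : M) (v : ℕ → M) (ρ : ℕ → ℕ) :
    (fun n => scons x v (up ρ n)) = scons x (fun n => v (ρ n)) := by
  funext n
  cases n <;> rfl

theorem sat_rename {M : Type u} (E : M → M → Prop) (φ : Fml) :
    ∀ (ρ : ℕ → ℕ) (v : ℕ → M), Sat E (φ.rename ρ) v ↔ Sat E φ (fun n => v (ρ n)) := by
  induction φ with
  | mem i j => intro ρ v; rfl
  | eq i j => intro ρ v; rfl
  | neg φ ih => intro ρ v; simp only [Fml.rename, Sat, ih]
  | and φ ψ ih1 ih2 => intro ρ v; simp only [Fml.rename, Sat, ih1, ih2]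
  | all φ ih =>
    intro ρ v
    simp only [Fml.rename, Sat, ih]
    refine forall_congr' fun x => ?_
    rw [scons_comp_up]

/-! ### Definable predicates in typed contexts -/

section Def

variable {M : Type u} (E : M → M → Prop)

/-- The elements of the set `a` of the model. -/
abbrev El (a : M) : Type u := {x : M // E x a}

/-- A term is a variable or a constant. -/
def ev (s : ℕ ⊕ M) (v : ℕ → M) : M :=
  match s with
  | .inl i => v i
  | .inr a => a

/-- `P` is definable with parameters, where `c g` is the list of variables described by `g`. -/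
def DefP {Γ : Type v} (c : Γ → ℕ → M) (P : Γ → Prop) : Prop :=
  ∃ (φ : Fml) (s : ℕ → ℕ ⊕ M), ∀ g, P g ↔ Sat E φ (fun n => ev (s n) (c g))

variable {E}
variable {Γ : Type v} {c : Γ → ℕ → M} {P Q : Γ → Prop}

theorem DefP.congr (h : DefP E c P) (hPQ : ∀ g, Q g ↔ P g) : DefP E c Q := by
  obtain ⟨φ, s, hs⟩ := h
  exact ⟨φ, s, fun g => (hPQ g).trans (hs g)⟩

theorem DefP.not (h : DefP E c P) : DefP E c (fun g => ¬ P g) := by
  obtain ⟨φ, s, hs⟩ := h
  exact ⟨.neg φ, s, fun g => not_congr (hs g)⟩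

theorem DefP.and (h : DefP E c P) (h' : DefP E c Q) : DefP E c (fun g => P g ∧ Q g) := by
  obtain ⟨φ, s, hs⟩ := h
  obtain ⟨ψ, t, ht⟩ := h'
  refine ⟨.and (φ.rename (fun n => 2 * n)) (ψ.rename (fun n => 2 * n + 1)),
    fun n => if n % 2 = 0 then s (n / 2) else t (n / 2), fun g => ?_⟩
  show (P g ∧ Q g) ↔ Sat E (φ.rename _) _ ∧ Sat E (ψ.rename _) _
  rw [sat_rename, sat_rename, hs g, ht g]
  have h1 : ∀ n, (if (2 * n) % 2 = 0 then s (2 * n / 2) else t (2 * n / 2)) = s n := by
    intro n
    rw [if_pos (by omega)]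
    congr 1
    omega
  have h2 : ∀ n, (if (2 * n + 1) % 2 = 0 then s ((2 * n + 1) / 2) else t ((2 * n + 1) / 2))
      = t n := by
    intro n
    rw [if_neg (by omega)]
    congr 1
    omega
  simp only [h1, h2]

theorem DefP.or (h : DefP E c P) (h' : DefP E c Q) : DefP E c (fun g => P g ∨ Q g) :=
  (h.not.and h'.not).not.congr fun g => by tauto

theorem DefP.imp (h : DefP E c P) (h' : DefP E c Q) : DefP E c (fun g => P g → Q g) :=
  (h.and h'.not).not.congr fun g => by tauto

theorem DefP.iff (h : DefP E c P) (h' : DefP E c Q) : DefP E c (fun g => P g ↔ Q g) :=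
  ((h.imp h').and (h'.imp h)).congr fun g => by tauto

/-- The extension of a context by an arbitrary variable. -/
def ext (c : Γ → ℕ → M) : Γ × M → ℕ → M := fun p => scons p.2 (c p.1)

variable (E) in
/-- The extension of a context by an element of the set `a`. -/
def extEl (c : Γ → ℕ → M) (a : M) : Γ × El E a → ℕ → M := fun p => scons p.2.1 (c p.1)

/-- The shift of the variables used for quantifiers. -/
def shiftS (s : ℕ → ℕ ⊕ M) : ℕ → ℕ
  | n => match s n with
    | .inl 0 => 0
    | _ => n + 1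

/-- The terms after the removal of the bound variable. -/
def dropS (s : ℕ → ℕ ⊕ M) : ℕ → ℕ ⊕ M
  | n => match s n with
    | .inl 0 => .inl 0
    | .inl (i + 1) => .inl i
    | .inr a => .inr a

theorem ev_shift (s : ℕ → ℕ ⊕ M) (x : M) (v : ℕ → M) (n : ℕ) :
    scons x (fun m => ev (dropS s m) v) (shiftS s n) = ev (s n) (scons x v) := by
  rcases hn : s n with i | a
  · cases i with
    | zero => simp only [shiftS, scons, hn, ev]
    | succ i => simp only [shiftS, scons, dropS, hn, ev]
  · simp only [shiftS, scons, dropS, hn, ev]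

theorem DefP.allM' {P : Γ × M → Prop} (h : DefP E (ext c) P) :
    DefP E c (fun g => ∀ x, P (g, x)) := by
  obtain ⟨φ, s, hs⟩ := h
  refine ⟨.all (φ.rename (shiftS s)), dropS s, fun g => ?_⟩
  refine forall_congr' fun x => ?_
  rw [sat_rename, hs (g, x)]
  have : (fun n => ev (s n) (ext c (g, x)))
      = fun n => scons x (fun m => ev (dropS s m) (c g)) (shiftS s n) := by
    funext n
    rw [ev_shift]
    rfl
  rw [this]

theorem DefP.allM {Q : Γ → M → Prop} (h : DefP E (ext c) (fun p => Q p.1 p.2)) :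
    DefP E c (fun g => ∀ x, Q g x) := DefP.allM' h

theorem DefP.exM {Q : Γ → M → Prop} (h : DefP E (ext c) (fun p => Q p.1 p.2)) :
    DefP E c (fun g => ∃ x, Q g x) :=
  (DefP.allM (Q := fun g x => ¬ Q g x) h.not).not.congr fun g => by simp

/-- Weakening. -/
theorem DefP.weaken (h : DefP E c P) : DefP E (ext c) (fun p => P p.1) := by
  obtain ⟨φ, s, hs⟩ := h
  refine ⟨φ, fun n => match s n with
    | .inl i => .inl (i + 1)
    | .inr a => .inr a, fun p => ?_⟩
  refine (hs p.1).trans ?_
  have : (fun n => ev (s n) (c p.1)) = fun n => ev (match s n with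
    | .inl i => .inl (i + 1)
    | .inr a => .inr a) (ext c p) := by
    funext n
    rcases s n with i | a <;> rfl
  rw [this]

variable (E) in
/-- The graph of `t` is definable. -/
def DefT (c : Γ → ℕ → M) (t : Γ → M) : Prop := DefP E (ext c) (fun p => p.2 = t p.1)

variable (E) in
/-- `t` is a variable or a constant. -/
def Atom (c : Γ → ℕ → M) (t : Γ → M) : Prop := ∃ s : ℕ ⊕ M, ∀ g, t g = ev s (c g)

theorem Atom.var {t : Γ → M} (k : ℕ) (h : ∀ g, t g = c g k) : Atom c t := ⟨.inl k, h⟩

theorem Atom.const (a : M) : Atom c (fun _ => a) := ⟨.inr a, fun _ => rfl⟩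

theorem Atom.weaken {t : Γ → M} (h : Atom c t) : Atom (ext c) (fun p => t p.1) := by
  obtain ⟨s | a, hs⟩ := h
  · exact ⟨.inl (s + 1), fun p => hs p.1⟩
  · exact ⟨.inr a, fun p => hs p.1⟩

theorem Atom.mem {t u : Γ → M} (ht : Atom c t) (hu : Atom c u) :
    DefP E c (fun g => E (t g) (u g)) := by
  obtain ⟨s, hs⟩ := ht
  obtain ⟨s', hs'⟩ := hu
  refine ⟨.mem 0 1, fun n => if n = 0 then s else s', fun g => ?_⟩
  simp [Sat, hs, hs']

theorem Atom.eq {t u : Γ → M} (ht : Atom c t) (hu : Atom c u) :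
    DefP E c (fun g => t g = u g) := by
  obtain ⟨s, hs⟩ := ht
  obtain ⟨s', hs'⟩ := hu
  refine ⟨.eq 0 1, fun n => if n = 0 then s else s', fun g => ?_⟩
  simp [Sat, hs, hs']

theorem Atom.defT {t : Γ → M} (h : Atom c t) : DefT E c t :=
  Atom.eq (Atom.var 0 fun _ => rfl) h.weaken

/-- Substitution of a definable term for the last variable. -/
theorem DefT.subst {t : Γ → M} {Q : Γ → M → Prop} (ht : DefT E c t)
    (hQ : DefP E (ext c) (fun p => Q p.1 p.2)) : DefP E c (fun g => Q g (t g)) :=
  (DefP.exM (Q := fun g x => x = t g ∧ Q g x) (ht.and hQ)).congr fun g => by simp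

/-- The insertion of a variable before the last one. -/
theorem DefT.weaken {t : Γ → M} (h : DefT E c t) : DefT E (ext c) (fun p => t p.1) := by
  obtain ⟨φ, s, hs⟩ := h
  refine ⟨φ, fun n => match s n with
    | .inl 0 => .inl 0
    | .inl (i + 1) => .inl (i + 2)
    | .inr a => .inr a, fun p => ?_⟩
  refine (hs (p.1.1, p.2)).trans ?_
  have : (fun n => ev (s n) (ext c (p.1.1, p.2))) = fun n => ev (match s n with
    | .inl 0 => .inl 0
    | .inl (i + 1) => .inl (i + 2)
    | .inr a => .inr a) (ext (ext c) p) := by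
    funext n
    rcases s n with i | a
    · cases i <;> rfl
    · rfl
  rw [this]

theorem DefT.mem {t u : Γ → M} (ht : DefT E c t) (hu : DefT E c u) :
    DefP E c (fun g => E (t g) (u g)) := by
  refine DefT.subst (Q := fun g x => E x (u g)) ht ?_
  refine DefT.subst (c := ext c) (Q := fun p y => E p.2 y) hu.weaken ?_
  exact Atom.mem (Atom.var 1 fun _ => rfl) (Atom.var 0 fun _ => rfl)

theorem DefT.eq {t u : Γ → M} (ht : DefT E c t) (hu : DefT E c u) :
    DefP E c (fun g => t g = u g) := by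
  refine DefT.subst (Q := fun g x => x = u g) ht ?_
  refine DefT.subst (c := ext c) (Q := fun p y => p.2 = y) hu.weaken ?_
  exact Atom.eq (Atom.var 1 fun _ => rfl) (Atom.var 0 fun _ => rfl)

/-! ### Definable relations -/

variable (E) in
/-- Definable unary relations. -/
def D1 (R : M → Prop) : Prop := DefP E (fun (x : M) (_ : ℕ) => x) R

variable (E) in
/-- Definable binary relations. -/
def D2 (R : M → M → Prop) : Prop :=
  DefP E (fun (p : M × M) => scons p.1 (fun _ => p.2)) (fun p => R p.1 p.2)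

variable (E) in
/-- Definable ternary relations. -/
def D3 (R : M → M → M → Prop) : Prop :=
  DefP E (fun (p : M × M × M) => scons p.1 (scons p.2.1 (fun _ => p.2.2)))
    (fun p => R p.1 p.2.1 p.2.2)

theorem D1.atom {R : M → Prop} (h : D1 E R) {t : Γ → M} (ht : Atom c t) :
    DefP E c (fun g => R (t g)) := by
  obtain ⟨φ, s, hs⟩ := h
  obtain ⟨a, ha⟩ := ht
  refine ⟨φ, fun n => match s n with
    | .inl _ => a
    | .inr b => .inr b, fun g => ?_⟩
  refine (hs (t g)).trans ?_
  have : (fun n => ev (s n) (fun _ => t g)) = fun n => ev (match s n with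
    | .inl _ => a
    | .inr b => .inr b) (c g) := by
    funext n
    rcases s n with i | b
    · exact ha g
    · rfl
  rw [this]

theorem D2.atom {R : M → M → Prop} (h : D2 E R) {t u : Γ → M} (ht : Atom c t)
    (hu : Atom c u) : DefP E c (fun g => R (t g) (u g)) := by
  obtain ⟨φ, s, hs⟩ := h
  obtain ⟨a, ha⟩ := ht
  obtain ⟨b, hb⟩ := hu
  refine ⟨φ, fun n => match s n with
    | .inl 0 => a
    | .inl (_ + 1) => b
    | .inr d => .inr d, fun g => ?_⟩
  refine (hs (t g, u g)).trans ?_
  have : (fun n => ev (s n) (scons (t g) (fun _ => u g))) = fun n => ev (match s n with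
    | .inl 0 => a
    | .inl (_ + 1) => b
    | .inr d => .inr d) (c g) := by
    funext n
    rcases s n with i | d
    · cases i with
      | zero => exact ha g
      | succ i => exact hb g
    · rfl
  rw [this]

theorem D3.atom {R : M → M → M → Prop} (h : D3 E R) {t u w : Γ → M} (ht : Atom c t)
    (hu : Atom c u) (hw : Atom c w) : DefP E c (fun g => R (t g) (u g) (w g)) := by
  obtain ⟨φ, s, hs⟩ := h
  obtain ⟨a, ha⟩ := ht
  obtain ⟨b, hb⟩ := hu
  obtain ⟨e, he⟩ := hw
  refine ⟨φ, fun n => match s n with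
    | .inl 0 => a
    | .inl 1 => b
    | .inl (_ + 2) => e
    | .inr d => .inr d, fun g => ?_⟩
  refine (hs (t g, u g, w g)).trans ?_
  have : (fun n => ev (s n) (scons (t g) (scons (u g) (fun _ => w g)))) =
    fun n => ev (match s n with
    | .inl 0 => a
    | .inl 1 => b
    | .inl (_ + 2) => e
    | .inr d => .inr d) (c g) := by
    funext n
    rcases s n with i | d
    · match i with
      | 0 => exact ha g
      | 1 => exact hb g
      | i + 2 => exact he g
    · rfl
  rw [this]

theorem D1.app {R : M → Prop} (h : D1 E R) {t : Γ → M} (ht : DefT E c t) :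
    DefP E c (fun g => R (t g)) :=
  DefT.subst (Q := fun _ x => R x) ht (h.atom (Atom.var 0 fun _ => rfl))

theorem D2.app {R : M → M → Prop} (h : D2 E R) {t u : Γ → M} (ht : DefT E c t)
    (hu : DefT E c u) : DefP E c (fun g => R (t g) (u g)) := by
  refine DefT.subst (Q := fun g x => R x (u g)) ht ?_
  refine DefT.subst (c := ext c) (Q := fun p y => R p.2 y) hu.weaken ?_
  exact h.atom (Atom.var 1 fun _ => rfl) (Atom.var 0 fun _ => rfl)

theorem D3.app {R : M → M → M → Prop} (h : D3 E R) {t u w : Γ → M} (ht : DefT E c t)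
    (hu : DefT E c u) (hw : DefT E c w) : DefP E c (fun g => R (t g) (u g) (w g)) := by
  refine DefT.subst (Q := fun g x => R x (u g) (w g)) ht ?_
  refine DefT.subst (c := ext c) (Q := fun p y => R p.2 y (w p.1)) hu.weaken ?_
  refine DefT.subst (c := ext (ext c)) (Q := fun p z => R p.1.2 p.2 z) hw.weaken.weaken ?_
  exact h.atom (Atom.var 2 fun _ => rfl) (Atom.var 1 fun _ => rfl) (Atom.var 0 fun _ => rfl)

theorem DefP.allEl {a : M} {Q : Γ → El E a → Prop}
    (h : DefP E (extEl E c a) (fun p => Q p.1 p.2)) : DefP E c (fun g => ∀ x, Q g x) := by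
  obtain ⟨φ, s, hs⟩ := h
  have h1 : DefP E (ext c) (fun p => E p.2 a → Sat E φ (fun n => ev (s n) (ext c p))) :=
    (Atom.mem (Atom.var 0 fun _ => rfl) (Atom.const a)).imp ⟨φ, s, fun g => Iff.rfl⟩
  refine (DefP.allM (Q := fun g x => E x a → Sat E φ (fun n => ev (s n) (ext c (g, x))))
    h1).congr fun g => ?_
  constructor
  · intro h x hx
    exact (hs (g, ⟨x, hx⟩)).1 (h ⟨x, hx⟩)
  · intro h x
    exact (hs (g, x)).2 (h x.1 x.2)

theorem DefP.exEl {a : M} {Q : Γ → El E a → Prop}
    (h : DefP E (extEl E c a) (fun p => Q p.1 p.2)) : DefP E c (fun g => ∃ x, Q g x) :=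
  (DefP.allEl (Q := fun g x => ¬ Q g x) h.not).not.congr fun g => by simp

theorem DefP.const (p : Prop) [Nonempty M] : DefP E c (fun _ => p) := by
  obtain ⟨a⟩ := ‹Nonempty M›
  have ht : DefP E c (fun _ => (a = a)) := Atom.eq (Atom.const a) (Atom.const a)
  by_cases hp : p
  · exact ht.congr fun g => by simp [hp]
  · exact ht.not.congr fun g => by simp [hp]

end Def

end Pool.Agent.SZD
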